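import Mathlib

set_option autoImplicit false

/-!
Alternating bilinear forms on a 4-dimensional space: nondegenerate iff the Pfaffian is not zero.
-/

namespace Pool.Agent.W_9986fc_h63

/-- the Pfaffian -/
def pfa (w : Fin 4 → Fin 4 → ℝ) : ℝ := w 0 1 * w 2 3 - w 0 2 * w 1 3 + w 0 3 * w 1 2

theorem det_alt (w : Fin 4 → Fin 4 → ℝ) (h : ∀ i j, w i j = - w j i) :
    (Matrix.of w).det = pfa w ^ 2 := by
  have h0 : ∀ i, w i i = 0 := fun i => by have := h i i; linarith
  rw [Matrix.det_succ_row_zero]
  simp only [Fin.sum_univ_succ, Matrix.det_fin_three, Matrix.submatrix_apply, Matrix.of_apply,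
    Fin.succAbove, Fin.isValue, Finset.univ_eq_empty, Finset.sum_empty]
  simp [pfa, Fin.lt_def, Fin.castSucc, Fin.succ, Fin.castAdd, Fin.castLE, h0]
  rw [h 1 0, h 2 0, h 3 0, h 2 1, h 3 1, h 3 2]
  ring

theorem nondeg_iff {V : Type*} [AddCommGroup V] [Module ℝ V] (f : Module.Basis (Fin 4) ℝ V)
    (b : V →ₗ[ℝ] V →ₗ[ℝ] ℝ) (hb : ∀ v, b v v = 0) :
    (∀ v, (∀ w, b v w = 0) → v = 0) ↔ pfa (fun i j => b (f i) (f j)) ≠ 0 := by
  have hal : ∀ v w, b v w = - b w v := by
    intro v w
    have h := hb (v + w)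
    simp only [map_add, LinearMap.add_apply, hb, zero_add, add_zero] at h
    linarith
  have hdet := det_alt (fun i j => b (f i) (f j)) (fun i j => hal _ _)
  have key : (∃ v, v ≠ 0 ∧ ∀ w, b v w = 0) ↔ (Matrix.of fun i j => b (f i) (f j)).det = 0 := by
    rw [← Matrix.exists_vecMul_eq_zero_iff]
    constructor
    · rintro ⟨v, hv, h⟩
      refine ⟨fun i => f.repr v i, ?_, ?_⟩
      · intro h0
        apply hv
        apply f.repr.injective
        rw [map_zero]
        ext i
        exact congrFun h0 i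
      · funext j
        have h1 : b (∑ i, f.repr v i • f i) (f j) = 0 := by rw [f.sum_repr]; exact h (f j)
        rw [map_sum, LinearMap.sum_apply] at h1
        simpa [Matrix.vecMul, dotProduct] using h1
    · rintro ⟨c, hc, h⟩
      refine ⟨∑ i, c i • f i, ?_, ?_⟩
      · intro h0
        apply hc
        funext i
        have := congrArg (fun v => f.repr v i) h0
        simpa [Finsupp.single_apply] using this
      · intro w
        rw [← f.sum_repr w]
        rw [map_sum]
        refine Finset.sum_eq_zero fun j _ => ?_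
        have h1 := congrFun h j
        have h2 : b (∑ i, c i • f i) (f j) = 0 := by
          simpa [Matrix.vecMul, dotProduct, map_sum, LinearMap.sum_apply] using h1
        rw [map_smul, h2, smul_zero]
  have h3 : (Matrix.of fun i j => b (f i) (f j)).det ≠ 0 ↔ pfa (fun i j => b (f i) (f j)) ≠ 0 := by
    rw [hdet]
    exact pow_ne_zero_iff (by norm_num)
  rw [← h3, Ne, ← key]
  constructor
  · rintro h ⟨v, hv, hw⟩
    exact hv (h v hw)
  · intro h v hv
    by_contra h0
    exact h ⟨v, h0, hv⟩

end Pool.Agent.W_9986fc_h63
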