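import Pool.Agent.W_MP_d8b8b7_S.Statement

/-!
# MP_9986fc_gt, coupling forms on flag bundles over 4-manifolds: definitions

`X` is a smooth 4-manifold (language of `Pool.Agent.W_MP_d8b8b7_S.Statement`: `Form X 2`, `val2`,
`SmoothForm`, `ClosedForm`, `IsSymplectic`).  A Hermitian vector bundle `E` of rank `N` with a unitary
connection is given as the image of a smooth family `P x` of Hermitian projections of `ℂ^K` with the
projected connection `P ∘ d` (by Narasimhan and Ramanan every unitary connection has this form).
A point of the flag bundle `Fl_k(E)` over `x` is a family `Q a` of pairwise orthogonal projections of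
rank `k a` with sum `P x`.
-/

set_option autoImplicit false

open scoped Manifold ContDiff

namespace Pool.Agent.W_9986fc_h63

open Pool.Agent.W_MP_d8b8b7_S

universe u

/-- complex `K × K` matrices -/
abbrev Mat (K : ℕ) : Type := Matrix (Fin K) (Fin K) ℂ

section Flags

variable {K s : ℕ}

/-- `Q` is a flag of type `k` in the image of the orthogonal projection `P`: an orthogonal
decomposition of `im P` into subspaces `im (Q a)` of dimension `k a` -/
structure IsFlag (k : Fin s → ℕ) (P : Mat K) (Q : Fin s → Mat K) : Prop where
  herm : ∀ a, (Q a).IsHermitian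
  mul : ∀ a b, Q a * Q b = if a = b then Q a else 0
  rank : ∀ a, (Q a).trace = k a
  sum : ∑ a, Q a = P

/-- `R` is the derivative of a path of flags `Q` of projections `P` with derivative `D`: the
derivative of the equations of `IsFlag` -/
structure IsFlagTangent (Q : Fin s → Mat K) (D : Mat K) (R : Fin s → Mat K) : Prop where
  herm : ∀ a, (R a).IsHermitian
  mul : ∀ a b, R a * Q b + Q a * R b = if a = b then R a else 0
  sum : ∑ a, R a = D

/-- the Kirillov-Kostant-Souriau form `i ∑ l a tr (Q a [R a, S a])`, up to sign, of the orbit of the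
Hermitian matrix `∑ l a Q a` -/
noncomputable def kks (l : Fin s → ℝ) (Q R S : Fin s → Mat K) : ℝ :=
  ∑ a, l a * (Matrix.trace (Q a * (R a * S a - S a * R a))).im

end Flags

section

variable {X : Type u} [TopologicalSpace X] [ChartedSpace E4 X] {K : ℕ}

/-- the derivative of a family of matrices in the direction of a tangent vector (entrywise) -/
noncomputable def dMat (P : X → Mat K) (x : X) (v : T x) : Mat K :=
  Matrix.of fun i j =>
    (show T x →L[ℝ] ℂ from mfderiv I4 𝓘(ℝ, ℂ) (fun y => P y i j) x) v

/-- `P` is a smooth family of orthogonal projections of rank `N` of `ℂ^K`: a Hermitian vector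
bundle `E = im P` of rank `N` with the projected connection -/
structure IsBundle (N : ℕ) (P : X → Mat K) : Prop where
  smooth : ∀ i j, ContMDiff I4 𝓘(ℝ, ℂ) ∞ (fun x => P x i j)
  herm : ∀ x, (P x).IsHermitian
  idem : ∀ x, P x * P x = P x
  rank : ∀ x, (P x).trace = N

/-- the form `β + ω_l` on the flag bundle `Fl_k(E) ⊆ X × (flags in ℂ^K)`, the restriction of `β` plus
the Kirillov-Kostant-Souriau form (it is closed if `β` is: a coupling form), is symplectic: it
is nondegenerate on the tangent space of `Fl_k(E)` at every point `(x, Q)` -/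
def CouplingSymplectic {s : ℕ} (k : Fin s → ℕ) (l : Fin s → ℝ) (P : X → Mat K)
    (β : Form X 2) : Prop :=
  ∀ (x : X) (Q : Fin s → Mat K), IsFlag k (P x) Q →
    ∀ (v : T x) (R : Fin s → Mat K), IsFlagTangent Q (dMat P x v) R →
      (∀ (w : T x) (S : Fin s → Mat K), IsFlagTangent Q (dMat P x w) S →
        val2 β x v w + kks l Q R S = 0) → v = 0 ∧ R = 0

/-- the curvature paired with `ξ`: `i tr (ξ [dP v, dP w])`, up to sign -/
noncomputable def curv (P : X → Mat K) (x : X) (ξ : Mat K) (v w : T x) : ℝ :=
  (Matrix.trace (ξ * (dMat P x v * dMat P x w - dMat P x w * dMat P x v))).im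

/-- the connection induced on the bundle of trace-free Hermitian endomorphisms of `E` is fat: the
2-form `i tr (ξ F)` on `T_x X` is nondegenerate for all trace-free Hermitian `ξ ≠ 0` of `E_x` -/
def Fat (P : X → Mat K) : Prop :=
  ∀ (x : X) (ξ : Mat K), ξ.IsHermitian → P x * ξ = ξ → ξ.trace = 0 → ξ ≠ 0 →
    ∀ v : T x, (∀ w : T x, curv P x ξ v w = 0) → v = 0

end

end Pool.Agent.W_9986fc_h63
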