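import Pool.Agent.W_9986fc_h63.FlB

/-!
MP_9986fc_gt (strike team T1: helper13, helper42, helper63).  Coupling forms on flag bundles over
4-manifolds.  `X` is a closed connected smooth 4-manifold, `E = im P` a Hermitian vector bundle of
rank `N` with the projected connection, `Fl_k(E)` the bundle of flags of type `k`, with `s ≥ 2`
steps, and `l` the eigenvalues of a coadjoint orbit of `U(N)` of this type.
-/

set_option autoImplicit false

open scoped ContDiff Manifold

namespace Pool.Agent.W_9986fc_h63.CFOld

open Pool.Agent.W_MP_d8b8b7_S Pool.Agent.W_9986fc_h63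

/-- (1) If the coupling form `β + ω_l` is symplectic on `Fl_k(E)`, then `β` plus the multiple
`∑ l k / N` of the curvature of `det E` is a symplectic form on `X`, or `N = 2` and the connection is
fat.  (2) `Fl_k(E)` has a symplectic coupling form iff `X` is symplectic, or `N = 2` and the connection
is fat. -/
theorem result (X : Type) [TopologicalSpace X] [ChartedSpace E4 X] [IsManifold I4 ∞ X]
    [CompactSpace X] [T2Space X] [ConnectedSpace X] (K N s : ℕ) (hs : 2 ≤ s) (k : Fin s → ℕ)
    (hk : ∀ a, 1 ≤ k a) (hN : ∑ a, k a = N) (l : Fin s → ℝ) (hl : Function.Injective l)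
    (P : X → Mat K) (hP : IsBundle N P) :
    (∀ β : Form X 2, SmoothForm β → ClosedForm β → CouplingSymplectic k l P β →
      (∃ Ω : Form X 2, IsSymplectic Ω ∧ ∀ (x : X) (v w : T x),
        val2 Ω x v w = val2 β x v w + (∑ a, l a * k a) / N * curv P x (P x) v w) ∨
      (N = 2 ∧ Fat P)) ∧
    ((∃ β : Form X 2, SmoothForm β ∧ ClosedForm β ∧ CouplingSymplectic k l P β) ↔
      (∃ Ω : Form X 2, IsSymplectic Ω) ∨ (N = 2 ∧ Fat P)) :=
  ⟨fun _ h1 h2 hc => flag_one hP hk hN hl hs h1 h2 hc, flag_two hP hk hN hl hs⟩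

end Pool.Agent.W_9986fc_h63.CFOld
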