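import Pool.Agent.W_9986fc_h63.Base

/-!
# Coupling forms on Grassmannian bundles (auxiliary definitions)

`Gr_k(E) = {(x, Q)}`, `Q` the orthogonal projection onto a `k`-dimensional subspace of `E_x`.
-/

set_option autoImplicit false

open scoped Manifold ContDiff

namespace Pool.Agent.W_9986fc_h63

open Pool.Agent.W_MP_d8b8b7_S

universe u

section

variable {X : Type u} [TopologicalSpace X] [ChartedSpace E4 X] {K : ℕ}

/-- `(x, Q)` is a point of `Gr_k(E)`: `Q` is the orthogonal projection onto a `k`-dimensional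
subspace of `E_x = im (P x)` -/
structure InGr (k : ℕ) (P : X → Mat K) (x : X) (Q : Mat K) : Prop where
  herm : Q.IsHermitian
  idem : Q * Q = Q
  rank : Q.trace = k
  le : P x * Q = Q

/-- `(v, R)` is a tangent vector of `Gr_k(E)` at `(x, Q)`: the derivative of the equations
`Q = Q*`, `Q Q = Q`, `P Q = Q` -/
structure IsTangent (P : X → Mat K) (x : X) (Q : Mat K) (v : T x) (R : Mat K) : Prop where
  herm : R.IsHermitian
  proj : R * Q + Q * R = R
  le : dMat P x v * Q + P x * R = R

/-- the Fubini-Study (Plücker, Kirillov-Kostant-Souriau) form `i tr (Q [R, S])`, up to sign, of the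
Grassmannian of `ℂ^K` at `Q` -/
noncomputable def fs (Q R S : Mat K) : ℝ := (Matrix.trace (Q * (R * S - S * R))).im

/-- the coupling form on `Gr_k(E)`: the restriction of `β + ω_FS` to `Gr_k(E) ⊆ X × Gr_k(ℂ^K)` -/
noncomputable def coupling (β : Form X 2) (x : X) (Q : Mat K) (v : T x) (R : Mat K)
    (w : T x) (S : Mat K) : ℝ := val2 β x v w + fs Q R S

/-- the coupling form (which is closed if `β` is) is symplectic: it is nondegenerate on all tangent
spaces of `Gr_k(E)` -/
def GrSymplectic (k : ℕ) (P : X → Mat K) (β : Form X 2) : Prop :=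
  ∀ (x : X) (Q : Mat K), InGr k P x Q → ∀ (v : T x) (R : Mat K), IsTangent P x Q v R →
    (∀ (w : T x) (S : Mat K), IsTangent P x Q w S → coupling β x Q v R w S = 0) → v = 0 ∧ R = 0

end

end Pool.Agent.W_9986fc_h63
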