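import Pool.Agent.W_9986fc_h63.Man8
import Pool.Agent.W_9986fc_h13.RigidFl2
import Pool.Agent.W_9986fc_h42.TanFl

set_option autoImplicit false

/-!
Flag bundles: the main theorem.
-/

open scoped Manifold ContDiff Topology Matrix

namespace Pool.Agent.W_9986fc_h63

open Pool.Agent.W_MP_d8b8b7_S

universe u

variable {K N s : ℕ}

/-- the Hermitian matrix of a flag -/
noncomputable def xi (l : Fin s → ℝ) (Q : Fin s → Mat K) : Mat K := ∑ a, (l a : ℂ) • Q a

theorem IsFlag.proj_mul {k : Fin s → ℕ} {P : Mat K} {Q : Fin s → Mat K} (hQ : IsFlag k P Q)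
    (a : Fin s) : P * Q a = Q a := by
  rw [← hQ.sum, Finset.sum_mul]
  simp [hQ.mul]

theorem IsFlag.idem {k : Fin s → ℕ} {P : Mat K} {Q : Fin s → Mat K} (hQ : IsFlag k P Q)
    (a : Fin s) : Q a * Q a = Q a := by
  simp [hQ.mul]

theorem IsFlag.proj_xi {k : Fin s → ℕ} {P : Mat K} {Q : Fin s → Mat K} (hQ : IsFlag k P Q)
    (l : Fin s → ℝ) : P * xi l Q = xi l Q := by
  unfold xi
  rw [Finset.mul_sum]
  exact Finset.sum_congr rfl fun a _ => by rw [Matrix.mul_smul, hQ.proj_mul]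

theorem IsFlag.herm_xi {k : Fin s → ℕ} {P : Mat K} {Q : Fin s → Mat K} (hQ : IsFlag k P Q)
    (l : Fin s → ℝ) : (xi l Q).IsHermitian := by
  unfold xi
  change (∑ a, (l a : ℂ) • Q a)ᴴ = _
  rw [Matrix.conjTranspose_sum]
  refine Finset.sum_congr rfl fun a _ => ?_
  rw [Matrix.conjTranspose_smul, (hQ.herm a).eq]
  simp

theorem IsFlag.trace_xi {k : Fin s → ℕ} {P : Mat K} {Q : Fin s → Mat K} (hQ : IsFlag k P Q)
    (l : Fin s → ℝ) : (xi l Q).trace = ((∑ a, l a * k a : ℝ) : ℂ) := by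
  unfold xi
  rw [Matrix.trace_sum]
  push_cast
  refine Finset.sum_congr rfl fun a _ => ?_
  rw [Matrix.trace_smul, hQ.rank, smul_eq_mul]

variable {X : Type u} [TopologicalSpace X] [ChartedSpace E4 X] {P : X → Mat K}

theorem coupling_iff_flag (hP : IsBundle N P) (β : Form X 2) (k : Fin s → ℕ) {l : Fin s → ℝ}
    (hl : Function.Injective l) : CouplingSymplectic k l P β ↔ ∀ (x : X) (Q : Fin s → Mat K),
      IsFlag k (P x) Q → ∀ v, (∀ w, hx hP 1 β x (xi l Q) v w = 0) → v = 0 := by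
  unfold CouplingSymplectic
  refine forall_congr' fun x => forall_congr' fun Q => ?_
  have key : ∀ hQ : IsFlag k (P x) Q, (∀ (v : T x) (R : Fin s → Mat K),
      IsFlagTangent Q (dMat P x v) R → (∀ (w : T x) (S : Fin s → Mat K),
        IsFlagTangent Q (dMat P x w) S → val2 β x v w + kks l Q R S = 0) → v = 0 ∧ R = 0) ↔
        ∀ v, (∀ w, hx hP 1 β x (xi l Q) v w = 0) → v = 0 := by
    intro hQ
    have h := nondeg_flag hl (hP.herm x) (hP.idem x) hQ (dL hP x) (dMat_herm hP x)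
      (dMat_idem hP x) (bil β x)
    have e : ∀ v w, bil β x v w + (Matrix.trace ((∑ a, (l a : ℂ) • Q a) *
        (dL hP x v * dL hP x w - dL hP x w * dL hP x v))).im = hx hP 1 β x (xi l Q) v w := by
      intro v w
      rw [hx_apply, one_mul]
      rfl
    simp only [e] at h
    exact h
  constructor
  · intro h hQ
    exact (key hQ).1 (h hQ)
  · intro h hQ
    exact (key hQ).2 (h hQ)

theorem curv_add_smul (P : X → Mat K) (x : X) (A B : Mat K) (c : ℝ) (v w : T x) :
    curv P x (A + (c : ℂ) • B) v w = curv P x A v w + c * curv P x B v w := by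
  simp only [curv, add_mul, Matrix.smul_mul, Matrix.trace_add, Matrix.trace_smul, Complex.add_im,
    smul_eq_mul, Complex.mul_im, Complex.ofReal_re, Complex.ofReal_im, zero_mul, add_zero]

section

variable [hX : IsManifold I4 ∞ X]

theorem rigid_flag (hP : IsBundle N P) (hN : 3 ≤ N) {k : Fin s → ℕ} (hk : ∀ a, 1 ≤ k a)
    (hsum : ∑ a, k a = N) {l : Fin s → ℝ} (hl : Function.Injective l) (hs : 2 ≤ s)
    {β : Form X 2} (h1 : SmoothForm β) (h2 : ClosedForm β) (hc : CouplingSymplectic k l P β)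
    (x : X) (v : T x) (hv : ∀ w : T x, 1 * val2 β x v w +
      ((∑ a, l a * k a) / N) * curv P x (P x) v w = 0) : v = 0 := by
  have hN0 : (N : ℝ) ≠ 0 := by positivity
  set τ : ℝ := ∑ a, l a * k a with hτ
  let c : ℝ := 1 - τ / N
  obtain ⟨β', -, -, hβ'⟩ := exists_form hP 1 (-c) h1 h2
  have hl1 : ∑ a, (l a + c) * k a = (N : ℝ) := by
    have e1 : ∑ a, (l a + c) * (k a : ℝ) = τ + c * ∑ a, (k a : ℝ) := by
      rw [hτ, Finset.mul_sum, ← Finset.sum_add_distrib]
      exact Finset.sum_congr rfl fun a _ => by ring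
    have e2 : ∑ a, (k a : ℝ) = N := by
      rw [← hsum]
      push_cast
      rfl
    rw [e1, e2]
    change τ + (1 - τ / N) * N = N
    field_simp
    ring
  have hxi : ∀ Q, IsFlag k (P x) Q → xi (fun a => l a + c) Q = xi l Q + (c : ℂ) • P x := by
    intro Q hQ
    unfold xi
    rw [← hQ.sum, Finset.smul_sum, ← Finset.sum_add_distrib]
    refine Finset.sum_congr rfl fun a _ => ?_
    push_cast
    rw [add_smul]
  have hpf : ∀ Q, IsFlag k (P x) Q →
      CF42.pf (CF42.arr (Mx P (1 / (N : ℝ)) β' x (std x)) (∑ a, ((l a + c : ℝ) : ℂ) • Q a)) ≠ 0 := by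
    intro Q hQ
    have e0 : ∑ a, ((l a + c : ℝ) : ℂ) • Q a = xi (fun a => l a + c) Q := rfl
    rw [e0]
    refine (nondeg_Mx hP (1 / (N : ℝ)) β' x (std x) (hQ.proj_xi _)).1 ?_
    rw [hQ.trace_xi, hl1]
    have e : 1 / (N : ℝ) * (((N : ℝ) : ℂ)).re = 1 := by
      rw [Complex.ofReal_re]
      field_simp
    rw [e]
    intro u hu
    refine (coupling_iff_flag hP β k hl).1 hc x Q hQ u fun w => ?_
    have h3 := hu w
    rw [hx_apply, hβ', hxi Q hQ, curv_add_smul] at h3
    rw [hx_apply]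
    linarith
  have hne : ∃ a b : Fin s, l a + c ≠ l b + c := by
    refine ⟨⟨0, by omega⟩, ⟨1, by omega⟩, fun h => ?_⟩
    have := hl (add_right_cancel h)
    simp [Fin.ext_iff] at this
  have h4 := Pool.Agent.W_9986fc_h13.rigidFl (isProj_of hP x) hN hk hsum hne hl1
    (hermAlt_Mx hP (1 / (N : ℝ)) β' x (std x)) hpf
  have h5 := (nondeg_Mx hP (1 / (N : ℝ)) β' x (std x) (hP.idem x)).2 h4
  refine h5 v fun w => ?_
  have e : 1 / (N : ℝ) * ((P x).trace).re = 1 := by
    rw [hP.rank x]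
    simp
    field_simp
  rw [e, hx_apply, hβ']
  have h6 := hv w
  have e2 : -c = τ / N - 1 := by
    change -(1 - τ / N) = τ / N - 1
    ring
  rw [e2]
  linarith

end

end Pool.Agent.W_9986fc_h63
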