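import Pool.Agent.W_9986fc_h63.FlA

set_option autoImplicit false

/-!
Flag bundles: rank two, converses, the main theorem.
-/

open scoped Manifold ContDiff Topology Matrix

namespace Pool.Agent.W_9986fc_h63

open Pool.Agent.W_MP_d8b8b7_S

universe u

variable {K N s : ℕ} {X : Type u} [TopologicalSpace X] [ChartedSpace E4 X] {P : X → Mat K}

theorem s_eq_two {k : Fin s → ℕ} (hk : ∀ a, 1 ≤ k a) (hs : 2 ≤ s) (hsum : ∑ a, k a = 2) :
    s = 2 := by
  have h : ∑ _a : Fin s, 1 ≤ ∑ a, k a := Finset.sum_le_sum fun a _ => hk a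
  simp at h
  omega

/-- a line in `E_x` and its complement -/
theorem isFlag_pair (hP : IsBundle 2 P) {k : Fin 2 → ℕ} (hk0 : k 0 = 1) (hk1 : k 1 = 1) {x : X}
    {Q : Mat K} (hQ : InGr 1 P x Q) : IsFlag k (P x) ![Q, P x - Q] := by
  have hP1 : (P x)ᴴ = P x := hP.herm x
  have hQ1 : Qᴴ = Q := hQ.herm
  have hQP : Q * P x = Q := by
    have h := congrArg Matrix.conjTranspose hQ.le
    rw [Matrix.conjTranspose_mul, hP1, hQ1] at h
    exact h
  refine ⟨fun a => ?_, fun a b => ?_, fun a => ?_, ?_⟩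
  · fin_cases a
    · exact hQ.herm
    · change (P x - Q)ᴴ = P x - Q
      rw [Matrix.conjTranspose_sub, hP1, hQ1]
  · fin_cases a <;> fin_cases b
    · simp [hQ.idem]
    · simp [mul_sub, hQP, hQ.idem]
    · simp [sub_mul, hQ.le, hQ.idem]
    · simp [sub_mul, mul_sub, hQ.le, hQ.idem, hQP, hP.idem x]
  · fin_cases a
    · simp [hQ.rank, hk0]
    · simp [Matrix.trace_sub, hQ.rank, hP.rank x, hk1]
      norm_num
  · simp [Fin.sum_univ_two]

section

variable [hX : IsManifold I4 ∞ X]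

theorem dichotomy_flag [ConnectedSpace X] (hP : IsBundle 2 P) {k : Fin s → ℕ}
    (hk : ∀ a, 1 ≤ k a) (hsum : ∑ a, k a = 2) {l : Fin s → ℝ} (hl : Function.Injective l)
    (hs : 2 ≤ s) {β : Form X 2} (h1 : SmoothForm β) (h2 : ClosedForm β)
    (hc : CouplingSymplectic k l P β) :
    (∀ (x : X) (v : T x), (∀ w : T x, 1 * val2 β x v w +
      ((∑ a, l a * k a) / (2 : ℕ)) * curv P x (P x) v w = 0) → v = 0) ∨ Fat P := by
  have hs2 := s_eq_two hk hs hsum
  subst hs2
  have hk0 : k 0 = 1 := by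
    have := hk 0; have := hk 1; rw [Fin.sum_univ_two] at hsum; omega
  have hk1 : k 1 = 1 := by
    have := hk 0; have := hk 1; rw [Fin.sum_univ_two] at hsum; omega
  have hd : l 0 - l 1 ≠ 0 := by
    intro h
    have := hl (sub_eq_zero.1 h)
    simp at this
  set d : ℝ := l 0 - l 1 with hd'
  obtain ⟨β', g1, g2, g3⟩ := exists_form hP (1 / d) (l 1 / d) h1 h2
  have hxi : ∀ (x : X) (Q : Mat K), xi l ![Q, P x - Q] = ((l 1 : ℝ) : ℂ) • P x + (d : ℂ) • Q := by
    intro x Q
    simp only [xi, Fin.sum_univ_two, Matrix.cons_val_zero, Matrix.cons_val_one, smul_sub, hd',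
      Complex.ofReal_sub, sub_smul]
    abel
  have hgr : GrSymplectic 1 P β' := by
    refine (coupling_iff hP β' 1).2 fun x Q hQ v hv => ?_
    refine (coupling_iff_flag hP β k hl).1 hc x _ (isFlag_pair hP hk0 hk1 hQ) v fun w => ?_
    have h3 := hv w
    rw [hx_apply, g3] at h3
    rw [hx_apply, hxi, curv_add_smul]
    have e : curv P x (((l 1 : ℝ) : ℂ) • P x) v w = l 1 * curv P x (P x) v w := by
      have h := curv_add_smul P x 0 (P x) (l 1) v w
      rw [zero_add] at h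
      rw [h]
      simp [curv]
    rw [e]
    have h4 : 1 * val2 β x v w + (l 1 * curv P x (P x) v w + d * curv P x Q v w) =
        d * (1 * (1 / d * val2 β x v w + l 1 / d * curv P x (P x) v w) + curv P x Q v w) := by
      field_simp
      ring
    rw [h4, h3, mul_zero]
  rcases dichotomy hP g1 hgr with h | h
  · left
    intro x v hv
    refine h x v fun w => ?_
    rw [g3]
    have h3 := hv w
    have h4 : 1 * (1 / d * val2 β x v w + l 1 / d * curv P x (P x) v w) +
        1 / 2 * curv P x (P x) v w = (1 / d) * (1 * val2 β x v w +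
          ((∑ a, l a * k a) / (2 : ℕ)) * curv P x (P x) v w) := by
      rw [Fin.sum_univ_two, hk0, hk1]
      push_cast
      field_simp
      rw [hd']
      ring
    rw [h4, h3, mul_zero]
  · exact Or.inr h

theorem of_fat_flag (hP : IsBundle 2 P) {k : Fin s → ℕ} (hk : ∀ a, 1 ≤ k a) {l : Fin s → ℝ}
    (hl : Function.Injective l) (hs : 2 ≤ s) (hF : Fat P) :
    ∃ β : Form X 2, SmoothForm β ∧ ClosedForm β ∧ CouplingSymplectic k l P β := by
  letI : ChartedSpace (EuclideanSpace ℝ (Fin 4)) X := oldChart X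
  have hM : @IsManifold ℝ _ _ _ _ _ _ 𝓘(ℝ, EuclideanSpace ℝ (Fin 4)) ∞ X _ (oldChart X) := hX
  set τ : ℝ := ∑ a, l a * k a with hτ
  obtain ⟨β, h1, h2, h3⟩ := exists_form hP 0 (-(τ / 2)) (β := newForm (@Old.curvForm K X _ (oldChart X) P))
    (@Old.smooth_curvForm K X _ (oldChart X) P hM hP.smooth)
    (@Old.closed_curvForm K X _ (oldChart X) P hM hP.smooth hP.idem)
  refine ⟨β, h1, h2, (coupling_iff_flag hP β k hl).2 fun x Q hQ v hv => ?_⟩
  refine hF x (xi l Q - ((τ / 2 : ℝ) : ℂ) • P x) ?_ ?_ ?_ ?_ v fun w => ?_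
  · have e1 : (xi l Q)ᴴ = xi l Q := hQ.herm_xi l
    have e2 : (P x)ᴴ = P x := hP.herm x
    change (xi l Q - ((τ / 2 : ℝ) : ℂ) • P x)ᴴ = _
    rw [Matrix.conjTranspose_sub, Matrix.conjTranspose_smul, e1, e2]
    simp
  · rw [mul_sub, Matrix.mul_smul, hQ.proj_xi, hP.idem x]
  · rw [Matrix.trace_sub, Matrix.trace_smul, hQ.trace_xi, hP.rank x, ← hτ]
    simp
  · intro h0
    have h4 : xi l Q = ((τ / 2 : ℝ) : ℂ) • P x := sub_eq_zero.1 h0
    have h5 : ∀ a, l a = τ / 2 := by
      intro a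
      have h6 : xi l Q * Q a = (l a : ℂ) • Q a := by
        unfold xi
        rw [Finset.sum_mul]
        simp [Matrix.smul_mul, hQ.mul]
      rw [h4, Matrix.smul_mul, hQ.proj_mul] at h6
      have h7 := congrArg Matrix.trace h6
      rw [Matrix.trace_smul, Matrix.trace_smul, hQ.rank, smul_eq_mul, smul_eq_mul] at h7
      have h8 : (k a : ℂ) ≠ 0 := by
        have := hk a
        exact_mod_cast (by omega : k a ≠ 0)
      exact_mod_cast (mul_right_cancel₀ h8 h7).symm
    have h6 : (⟨0, by omega⟩ : Fin s) = ⟨1, by omega⟩ := hl ((h5 _).trans (h5 _).symm)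
    simp [Fin.ext_iff] at h6
  · rw [curv_sub_smul]
    have h4 := hv w
    rw [hx_apply, h3 x v w] at h4
    linarith

theorem of_symplectic_flag [CompactSpace X] (hP : IsBundle N P) {Ω : Form X 2}
    (hΩ : IsSymplectic Ω) (k : Fin s → ℕ) {l : Fin s → ℝ} (hl : Function.Injective l) :
    ∃ β : Form X 2, SmoothForm β ∧ ClosedForm β ∧ CouplingSymplectic k l P β := by
  obtain ⟨t, ht⟩ := exists_large hP hΩ
  set C : ℝ := (∑ a, |l a|) + 1 with hC
  have hC0 : 0 < C := by positivity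
  obtain ⟨β, h1, h2, h3⟩ := exists_form hP (C * t) 0 hΩ.smooth hΩ.closed
  refine ⟨β, h1, h2, (coupling_iff_flag hP β k hl).2 fun x Q hQ v hv => ?_⟩
  refine ht x (((1 / C : ℝ) : ℂ) • xi l Q) ?_ v fun w => ?_
  · intro a b
    rw [Matrix.smul_apply, norm_smul, Complex.norm_real, Real.norm_of_nonneg (by positivity)]
    have h4 : ‖xi l Q a b‖ ≤ ∑ c, |l c| := by
      unfold xi
      rw [Matrix.sum_apply]
      refine (norm_sum_le _ _).trans (Finset.sum_le_sum fun c _ => ?_)
      rw [Matrix.smul_apply, norm_smul, Complex.norm_real, Real.norm_eq_abs]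
      calc |l c| * ‖Q c a b‖ ≤ |l c| * 1 :=
            mul_le_mul_of_nonneg_left (entry_le (hQ.herm c) (hQ.idem c) a b) (abs_nonneg _)
        _ = |l c| := mul_one _
    calc 1 / C * ‖xi l Q a b‖ ≤ 1 / C * C := by
          refine mul_le_mul_of_nonneg_left ?_ (by positivity)
          rw [hC]
          linarith
      _ = 1 := by field_simp
  · have h4 := hv w
    rw [hx_apply, h3 x v w] at h4
    rw [hx_apply]
    have e : curv P x (((1 / C : ℝ) : ℂ) • xi l Q) v w = 1 / C * curv P x (xi l Q) v w := by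
      have h := curv_add_smul P x 0 (xi l Q) (1 / C) v w
      rw [zero_add] at h
      rw [h]
      simp [curv]
    rw [e]
    have h5 : t * val2 Ω x v w + 1 / C * curv P x (xi l Q) v w =
        (1 / C) * (1 * (C * t * val2 Ω x v w + 0 * curv P x (P x) v w) + curv P x (xi l Q) v w) := by
      field_simp
      ring
    rw [h5, h4, mul_zero]

theorem flag_one [ConnectedSpace X] (hP : IsBundle N P) {k : Fin s → ℕ} (hk : ∀ a, 1 ≤ k a)
    (hsum : ∑ a, k a = N) {l : Fin s → ℝ} (hl : Function.Injective l) (hs : 2 ≤ s)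
    {β : Form X 2} (h1 : SmoothForm β) (h2 : ClosedForm β) (hc : CouplingSymplectic k l P β) :
    (∃ Ω : Form X 2, IsSymplectic Ω ∧ ∀ (x : X) (v w : T x),
      val2 Ω x v w = val2 β x v w + (∑ a, l a * k a) / N * curv P x (P x) v w) ∨
      (N = 2 ∧ Fat P) := by
  obtain ⟨Ω, a1, a2, a3⟩ := exists_form hP 1 ((∑ a, l a * k a) / N) h1 h2
  have hfin : (∀ (x : X) (v : T x), (∀ w : T x, 1 * val2 β x v w +
      ((∑ a, l a * k a) / N) * curv P x (P x) v w = 0) → v = 0) →
      ∃ Ω : Form X 2, IsSymplectic Ω ∧ ∀ (x : X) (v w : T x),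
        val2 Ω x v w = val2 β x v w + (∑ a, l a * k a) / N * curv P x (P x) v w := by
    intro h
    refine ⟨Ω, ⟨a1, a2, fun x v hv => h x v fun w => ?_⟩, fun x v w => ?_⟩
    · rw [← a3]
      exact hv w
    · rw [a3, one_mul]
  rcases Nat.lt_or_ge N 3 with hN | hN
  · have hN2 : N = 2 := by
      have h : ∑ _a : Fin s, 1 ≤ ∑ a, k a := Finset.sum_le_sum fun a _ => hk a
      simp at h
      omega
    subst hN2
    rcases dichotomy_flag hP hk hsum hl hs h1 h2 hc with h | h
    · exact Or.inl (hfin h)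
    · exact Or.inr ⟨rfl, h⟩
  · left
    exact hfin (rigid_flag hP hN hk hsum hl hs h1 h2 hc)

theorem flag_two [CompactSpace X] [ConnectedSpace X] (hP : IsBundle N P) {k : Fin s → ℕ}
    (hk : ∀ a, 1 ≤ k a) (hsum : ∑ a, k a = N) {l : Fin s → ℝ} (hl : Function.Injective l)
    (hs : 2 ≤ s) :
    (∃ β : Form X 2, SmoothForm β ∧ ClosedForm β ∧ CouplingSymplectic k l P β) ↔
      (∃ Ω : Form X 2, IsSymplectic Ω) ∨ (N = 2 ∧ Fat P) := by
  constructor
  · rintro ⟨β, h1, h2, hc⟩
    rcases flag_one hP hk hsum hl hs h1 h2 hc with ⟨Ω, h, -⟩ | h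
    · exact Or.inl ⟨Ω, h⟩
    · exact Or.inr h
  · rintro (⟨Ω, h⟩ | ⟨hN2, hF⟩)
    · exact of_symplectic_flag hP h k hl
    · subst hN2
      exact of_fat_flag hP hk hl hs hF

end

end Pool.Agent.W_9986fc_h63
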