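import Pool.Agent.W_9986fc_h63.Defs
import Pool.Agent.W_MP_d8b8b7_S.Transfer
import Pool.Agent.W_MP_d8b8b7_G1.PullSmooth

set_option autoImplicit false

/-!
Forms `t (P x) (dP u) (dP v)` on a 4-manifold, `t` trilinear on matrices: smooth; closed if the
cyclic sum vanishes on tangent vectors.  (Language of `W_MP_d8b8b7_gt`.)
-/

namespace Pool.Agent.W_9986fc_h63.Old

open Pool.Agent.W_MP_d8b8b7_gt Pool.Agent.W_MP_d8b8b7_G1
open scoped Manifold ContDiff

variable {M : Type*} [TopologicalSpace M] [ChartedSpace E4 M] {K : ℕ}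

/-- the space of matrices with a norm -/
abbrev W (K : ℕ) : Type := Fin K → Fin K → ℂ

/-- entrywise derivative -/
noncomputable def mD (P : M → W K) (x : M) (v : E4) : W K := fun i j =>
  (show E4 →L[ℝ] ℂ from mfderiv 𝓘(ℝ, E4) 𝓘(ℝ, ℂ) (fun y => P y i j) x) v

theorem contMDiff_W {P : M → W K}
    (hP : ∀ i j, ContMDiff 𝓘(ℝ, E4) 𝓘(ℝ, ℂ) ∞ (fun x => P x i j)) :
    ContMDiff 𝓘(ℝ, E4) 𝓘(ℝ, W K) ∞ P := by
  rw [contMDiff_pi_space]
  intro i
  rw [contMDiff_pi_space]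
  intro j
  exact hP i j

theorem mfderiv_W {P : M → W K}
    (hP : ∀ i j, ContMDiff 𝓘(ℝ, E4) 𝓘(ℝ, ℂ) ∞ (fun x => P x i j)) (x : M) (v : E4) :
    (show E4 →L[ℝ] W K from mfderiv 𝓘(ℝ, E4) 𝓘(ℝ, W K) P x) v = mD P x v := by
  funext i j
  have h1 : MDifferentiableAt 𝓘(ℝ, E4) 𝓘(ℝ, W K) P x :=
    ((contMDiff_W hP).mdifferentiable (by simp)) x
  let L : W K →L[ℝ] ℂ :=
    (ContinuousLinearMap.proj (R := ℝ) (φ := fun _ : Fin K => ℂ) j).comp
      (ContinuousLinearMap.proj (R := ℝ) (φ := fun _ : Fin K => Fin K → ℂ) i)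
  have h2 : HasMFDerivAt 𝓘(ℝ, W K) 𝓘(ℝ, ℂ) L (P x) L := L.hasMFDerivAt
  have h3 := (h2.comp x h1.hasMFDerivAt).mfderiv
  have h4 := congrArg (fun A : E4 →L[ℝ] ℂ => A v) h3
  exact h4.symm

/-- coordinates on the space of matrices -/
noncomputable def TE (K : ℕ) : W K →L[ℝ] EN (Module.finrank ℝ (W K)) :=
  (toEuclidean (E := W K)).toContinuousLinearMap

/-- the inverse of the coordinates -/
noncomputable def TS (K : ℕ) : EN (Module.finrank ℝ (W K)) →L[ℝ] W K :=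
  (toEuclidean (E := W K)).symm.toContinuousLinearMap

theorem TS_TE (a : W K) : TS K (TE K a) = a :=
  (toEuclidean (E := W K)).symm_apply_apply a

/-- coordinates of a map to the space of matrices -/
noncomputable def ec (P : M → W K) (x : M) : EN (Module.finrank ℝ (W K)) := TE K (P x)

theorem contMDiff_ec {P : M → W K}
    (hP : ∀ i j, ContMDiff 𝓘(ℝ, E4) 𝓘(ℝ, ℂ) ∞ (fun x => P x i j)) :
    ContMDiff 𝓘(ℝ, E4) 𝓘(ℝ, EN (Module.finrank ℝ (W K))) ∞ (ec P) := by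
  have h1 : ContDiff ℝ ∞ (TE K) := (TE K).contDiff
  exact h1.contMDiff.comp (contMDiff_W hP)

theorem de_ec {P : M → W K}
    (hP : ∀ i j, ContMDiff 𝓘(ℝ, E4) 𝓘(ℝ, ℂ) ∞ (fun x => P x i j)) (x : M) (v : E4) :
    de (ec P) x v = TE K (mD P x v) := by
  have h1 : MDifferentiableAt 𝓘(ℝ, E4) 𝓘(ℝ, W K) P x :=
    ((contMDiff_W hP).mdifferentiable (by simp)) x
  have h2 : HasMFDerivAt 𝓘(ℝ, W K) 𝓘(ℝ, EN (Module.finrank ℝ (W K)))
      (TE K) (P x) (TE K) := (TE K).hasMFDerivAt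
  have h3 := (h2.comp x h1.hasMFDerivAt).mfderiv
  have h4 := congrArg (fun A : E4 →L[ℝ] EN (Module.finrank ℝ (W K)) => A v) h3
  refine h4.trans ?_
  rw [← mfderiv_W hP x v]
  rfl

/-- the field of bilinear forms of a trilinear map -/
noncomputable def bt (t : W K →L[ℝ] W K →L[ℝ] W K →L[ℝ] ℝ) :
    EN (Module.finrank ℝ (W K)) →ₗ[ℝ] Bil (Module.finrank ℝ (W K)) where
  toFun a := Bil.mk₂ (fun u v => t (TS K a) (TS K u) (TS K v))
    (fun u u' v => by simp) (fun c u v => by simp) (fun u v v' => by simp) (fun c u v => by simp)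
  map_add' a b := by
    refine Bil.ext fun u v => ?_
    simp only [Bil.mk₂_apply, Bil.add_apply, map_add, add_apply]
  map_smul' c a := by
    refine Bil.ext fun u v => ?_
    simp only [Bil.mk₂_apply, Bil.smul_apply, map_smul, smul_apply, smul_eq_mul, RingHom.id_apply]

theorem bt_apply (t : W K →L[ℝ] W K →L[ℝ] W K →L[ℝ] ℝ) (a u v : EN (Module.finrank ℝ (W K))) :
    bt t a u v = t (TS K a) (TS K u) (TS K v) := rfl

/-- the form `t (P x) (dP u) (dP v)` -/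
noncomputable def formOf (t : W K →L[ℝ] W K →L[ℝ] W K →L[ℝ] ℝ) (P : M → W K) : Form M 2 :=
  pb2 (ec P) (fun a => bt t a)

variable {t : W K →L[ℝ] W K →L[ℝ] W K →L[ℝ] ℝ} {P : M → W K}

theorem isForm_bt (ht : ∀ a u, t a u u = 0) : IsForm (fun a => bt t a) where
  smooth := (LinearMap.toContinuousLinearMap (bt t)).contDiff
  alt a u := by rw [bt_apply]; exact ht _ _

theorem formOf_apply (hP : ∀ i j, ContMDiff 𝓘(ℝ, E4) 𝓘(ℝ, ℂ) ∞ (fun x => P x i j))
    (ht : ∀ a u, t a u u = 0) (x : M) (u v : E4) :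
    formOf t P x ![u, v] = t (P x) (mD P x u) (mD P x v) := by
  unfold formOf
  rw [pb2_apply _ (isForm_bt ht).alt, de_ec hP, de_ec hP, bt_apply]
  unfold ec
  rw [TS_TE, TS_TE, TS_TE]

theorem dTwo_bt (a u v w : EN (Module.finrank ℝ (W K))) :
    dTwo (fun a => bt t a) a u v w = bt t u v w - bt t v u w + bt t w u v := by
  have h : fderiv ℝ (fun a => bt t a) a = LinearMap.toContinuousLinearMap (bt t) :=
    (LinearMap.toContinuousLinearMap (bt t)).fderiv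
  unfold dTwo
  rw [h]
  rfl

variable [IsManifold 𝓘(ℝ, E4) ∞ M]

theorem smooth_formOf (hP : ∀ i j, ContMDiff 𝓘(ℝ, E4) 𝓘(ℝ, ℂ) ∞ (fun x => P x i j))
    (ht : ∀ a u, t a u u = 0) : SmoothForm (formOf t P) :=
  smooth_pb2 (contMDiff_ec hP) (isForm_bt ht)

theorem closed_formOf (hP : ∀ i j, ContMDiff 𝓘(ℝ, E4) 𝓘(ℝ, ℂ) ∞ (fun x => P x i j))
    (ht : ∀ a u, t a u u = 0)
    (hc : ∀ (x : M) (u v w : E4), t (mD P x u) (mD P x v) (mD P x w)
      - t (mD P x v) (mD P x u) (mD P x w) + t (mD P x w) (mD P x u) (mD P x v) = 0) :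
    ClosedForm (formOf t P) := by
  refine (closed_pb2 (contMDiff_ec hP) (isForm_bt ht)).2 fun x u v w => ?_
  rw [dTwo_bt, de_ec hP, de_ec hP, de_ec hP]
  simp only [bt_apply, TS_TE]
  exact hc x u v w

end Pool.Agent.W_9986fc_h63.Old
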