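import Pool.Agent.W_9986fc_h63.Man1

set_option autoImplicit false

/-!
Matrix operations as continuous multilinear maps; derivative of a family of projections; the form
`i tr (P [dP, dP])` is closed.
-/

namespace Pool.Agent.W_9986fc_h63.Old

open Pool.Agent.W_MP_d8b8b7_gt Pool.Agent.W_MP_d8b8b7_G1
open scoped Manifold ContDiff

variable {K : ℕ}

/-- the same matrix -/
abbrev asM (a : W K) : Mat K := a

/-- matrix product -/
noncomputable def mulL (K : ℕ) : W K →L[ℝ] W K →L[ℝ] W K :=
  (LinearMap.mk₂ ℝ (fun a b : W K => (asM a * asM b : Mat K))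
    (fun a a' b => add_mul (asM a) (asM a') (asM b))
    (fun c a b => Matrix.smul_mul c (asM a) (asM b))
    (fun a b b' => mul_add (asM a) (asM b) (asM b'))
    (fun c a b => Matrix.mul_smul (asM a) c (asM b))).toContinuousBilinearMap

theorem mulL_apply (a b : W K) : mulL K a b = (asM a * asM b : Mat K) := rfl

/-- conjugate transpose -/
noncomputable def starL (K : ℕ) : W K →L[ℝ] W K :=
  LinearMap.toContinuousLinearMap
    { toFun := fun a => (asM a).conjTranspose
      map_add' := fun a b => Matrix.conjTranspose_add (asM a) (asM b)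
      map_smul' := fun c a => by
        have h := Matrix.conjTranspose_smul c (asM a)
        rw [star_trivial] at h
        exact h }

theorem starL_apply (a : W K) : starL K a = (asM a).conjTranspose := rfl

/-- trilinear maps from their values -/
noncomputable def tri (f : W K → W K → W K → ℝ)
    (h1 : ∀ a a' u v, f (a + a') u v = f a u v + f a' u v)
    (h1' : ∀ (c : ℝ) a u v, f (c • a) u v = c * f a u v)
    (h2 : ∀ a u u' v, f a (u + u') v = f a u v + f a u' v)
    (h2' : ∀ (c : ℝ) a u v, f a (c • u) v = c * f a u v)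
    (h3 : ∀ a u v v', f a u (v + v') = f a u v + f a u v')
    (h3' : ∀ (c : ℝ) a u v, f a u (c • v) = c * f a u v) :
    W K →L[ℝ] W K →L[ℝ] W K →L[ℝ] ℝ :=
  LinearMap.toContinuousLinearMap
    { toFun := fun a => (LinearMap.mk₂ ℝ (f a) (h2 a) (fun c => h2' c a) (h3 a)
        (fun c => h3' c a)).toContinuousBilinearMap
      map_add' := fun a b => by
        refine ContinuousLinearMap.ext fun u => ContinuousLinearMap.ext fun v => ?_
        exact h1 a b u v
      map_smul' := fun c a => by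
        refine ContinuousLinearMap.ext fun u => ContinuousLinearMap.ext fun v => ?_
        exact h1' c a u v }

/-- `i tr (a [u, v])` up to sign -/
noncomputable def cf (a u v : Mat K) : ℝ := (Matrix.trace (a * (u * v - v * u))).im

/-- the trilinear map of the curvature -/
noncomputable def tcurv (K : ℕ) : W K →L[ℝ] W K →L[ℝ] W K →L[ℝ] ℝ :=
  tri (fun a u v => cf (asM a) (asM u) (asM v))
    (fun a a' u v => by
      change cf (asM a + asM a') (asM u) (asM v) = _
      simp only [cf, add_mul, Matrix.trace_add, Complex.add_im])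
    (fun c a u v => by
      change cf (c • asM a) (asM u) (asM v) = _
      simp [cf])
    (fun a u u' v => by
      change cf (asM a) (asM u + asM u') (asM v) = _
      simp only [cf, add_mul, mul_add, mul_sub, Matrix.trace_add, Matrix.trace_sub, Complex.add_im,
        Complex.sub_im]
      ring)
    (fun c a u v => by
      change cf (asM a) (c • asM u) (asM v) = _
      simp [cf, mul_sub])
    (fun a u v v' => by
      change cf (asM a) (asM u) (asM v + asM v') = _
      simp only [cf, add_mul, mul_add, mul_sub, Matrix.trace_add, Matrix.trace_sub, Complex.add_im,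
        Complex.sub_im]
      ring)
    (fun c a u v => by
      change cf (asM a) (asM u) (c • asM v) = _
      simp [cf, mul_sub])

theorem tcurv_apply (a u v : W K) : tcurv K a u v = cf (asM a) (asM u) (asM v) := rfl

theorem cf_self (a u : Mat K) : cf a u u = 0 := by simp [cf]

variable {M : Type*} [TopologicalSpace M] [ChartedSpace E4 M] {P : M → W K}

theorem mD_star (hP : ∀ i j, ContMDiff 𝓘(ℝ, E4) 𝓘(ℝ, ℂ) ∞ (fun x => P x i j))
    (h : ∀ x, (asM (P x)).IsHermitian) (x : M) (v : E4) : (asM (mD P x v)).IsHermitian := by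
  have h1 : HasMFDerivAt 𝓘(ℝ, E4) 𝓘(ℝ, W K) P x (mfderiv 𝓘(ℝ, E4) 𝓘(ℝ, W K) P x) :=
    (((contMDiff_W hP).mdifferentiable (by simp)) x).hasMFDerivAt
  have h2 : HasMFDerivAt 𝓘(ℝ, W K) 𝓘(ℝ, W K) (starL K) (P x) (starL K) := (starL K).hasMFDerivAt
  have h3 := (h2.comp x h1).mfderiv
  have h5 : (starL K) ∘ P = P := by
    funext y
    exact h y
  have h4 := congrArg (fun A : E4 →L[ℝ] W K => A v) h3
  have h6 : (show E4 →L[ℝ] W K from mfderiv 𝓘(ℝ, E4) 𝓘(ℝ, W K) P x) v =
      starL K ((show E4 →L[ℝ] W K from mfderiv 𝓘(ℝ, E4) 𝓘(ℝ, W K) P x) v) := by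
    refine Eq.trans ?_ h4
    rw [h5]
  rw [mfderiv_W hP] at h6
  exact h6.symm

theorem mD_idem (hP : ∀ i j, ContMDiff 𝓘(ℝ, E4) 𝓘(ℝ, ℂ) ∞ (fun x => P x i j))
    (h : ∀ x, asM (P x) * asM (P x) = asM (P x)) (x : M) (v : E4) :
    asM (P x) * asM (mD P x v) + asM (mD P x v) * asM (P x) = asM (mD P x v) := by
  have h1 : HasMFDerivAt 𝓘(ℝ, E4) 𝓘(ℝ, W K) P x (mfderiv 𝓘(ℝ, E4) 𝓘(ℝ, W K) P x) :=
    (((contMDiff_W hP).mdifferentiable (by simp)) x).hasMFDerivAt
  have h0 : HasFDerivAt (fun a : W K => mulL K a a)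
      ((mulL K).precompR (W K) (P x) (ContinuousLinearMap.id ℝ (W K)) +
        (mulL K).precompL (W K) (ContinuousLinearMap.id ℝ (W K)) (P x)) (P x) :=
    (mulL K).hasFDerivAt_of_bilinear (hasFDerivAt_id (P x)) (hasFDerivAt_id (P x))
  have h2 := h0.hasMFDerivAt
  have h3 := (h2.comp x h1).mfderiv
  have h5 : (fun a : W K => mulL K a a) ∘ P = P := by
    funext y
    exact h y
  have h4 := congrArg (fun A : E4 →L[ℝ] W K => A v) h3
  have h6 : (show E4 →L[ℝ] W K from mfderiv 𝓘(ℝ, E4) 𝓘(ℝ, W K) P x) v =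
      mulL K (P x) ((show E4 →L[ℝ] W K from mfderiv 𝓘(ℝ, E4) 𝓘(ℝ, W K) P x) v) +
      mulL K ((show E4 →L[ℝ] W K from mfderiv 𝓘(ℝ, E4) 𝓘(ℝ, W K) P x) v) (P x) := by
    refine Eq.trans ?_ h4
    rw [h5]
  rw [mfderiv_W hP] at h6
  exact h6.symm

theorem mD_add (hP : ∀ i j, ContMDiff 𝓘(ℝ, E4) 𝓘(ℝ, ℂ) ∞ (fun x => P x i j)) (x : M) (v w : E4) :
    mD P x (v + w) = mD P x v + mD P x w := by
  rw [← mfderiv_W hP, ← mfderiv_W hP, ← mfderiv_W hP, map_add]

theorem mD_smul (hP : ∀ i j, ContMDiff 𝓘(ℝ, E4) 𝓘(ℝ, ℂ) ∞ (fun x => P x i j)) (x : M) (c : ℝ)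
    (v : E4) : mD P x (c • v) = c • mD P x v := by
  rw [← mfderiv_W hP, ← mfderiv_W hP, map_smul]

/-- the trace of the product of three off-diagonal matrices vanishes -/
theorem trace_three {p u v w : Mat K} (hp : p * p = p) (hu : p * u + u * p = u)
    (hv : p * v + v * p = v) (hw : p * w + w * p = w) : (u * v * w).trace = 0 := by
  have off : ∀ {a : Mat K}, p * a + a * p = a → p * a = a * (1 - p) ∧ a * p = (1 - p) * a := by
    intro a ha
    constructor
    · rw [mul_sub, mul_one, eq_sub_iff_add_eq]; exact ha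
    · rw [sub_mul, one_mul, eq_sub_iff_add_eq, add_comm]; exact ha
  have e1 : p * (u * v * w) = u * v * w * (1 - p) := by
    have a1 := (off hu).1
    have a2 := (off hv).2
    have a3 := (off hw).1
    calc p * (u * v * w) = (p * u) * v * w := by simp only [mul_assoc]
      _ = u * ((1 - p) * v) * w := by rw [a1]; simp only [mul_assoc]
      _ = u * v * (p * w) := by rw [← a2]; simp only [mul_assoc]
      _ = u * v * w * (1 - p) := by rw [a3]; simp only [mul_assoc]
  have e2 : (p * (u * v * w)).trace = 0 := by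
    have : p * (u * v * w) = p * (u * v * w) * (1 - p) := by
      conv_lhs => rw [← hp, mul_assoc, e1, ← mul_assoc]
    rw [this, Matrix.trace_mul_comm, ← mul_assoc]
    have : (1 - p) * p = 0 := by rw [sub_mul, one_mul, hp, sub_self]
    rw [this, zero_mul, Matrix.trace_zero]
  have e3 : ((1 - p) * (u * v * w)).trace = 0 := by
    rw [Matrix.trace_mul_comm, ← e1, e2]
  have : u * v * w = p * (u * v * w) + (1 - p) * (u * v * w) := by
    rw [sub_mul, one_mul]; abel
  rw [this, Matrix.trace_add, e2, e3, add_zero]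

theorem cf_three {p u v w : Mat K} (hp : p * p = p) (hu : p * u + u * p = u)
    (hv : p * v + v * p = v) (hw : p * w + w * p = w) : cf u v w = 0 := by
  have h1 := trace_three hp hu hv hw
  have h2 := trace_three hp hu hw hv
  simp only [cf, mul_sub, ← mul_assoc, Matrix.trace_sub, h1, h2, sub_zero, Complex.zero_im]

/-- the form `i tr (P [dP, dP])` -/
noncomputable def curvForm (P : M → W K) : Form M 2 := formOf (tcurv K) P

theorem curvForm_apply (hP : ∀ i j, ContMDiff 𝓘(ℝ, E4) 𝓘(ℝ, ℂ) ∞ (fun x => P x i j))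
    (x : M) (u v : E4) :
    curvForm P x ![u, v] = cf (asM (P x)) (asM (mD P x u)) (asM (mD P x v)) :=
  formOf_apply hP (fun a u => cf_self (asM a) (asM u)) x u v

variable [IsManifold 𝓘(ℝ, E4) ∞ M]

theorem smooth_curvForm (hP : ∀ i j, ContMDiff 𝓘(ℝ, E4) 𝓘(ℝ, ℂ) ∞ (fun x => P x i j)) :
    SmoothForm (curvForm P) :=
  smooth_formOf hP (fun a u => cf_self (asM a) (asM u))

theorem closed_curvForm (hP : ∀ i j, ContMDiff 𝓘(ℝ, E4) 𝓘(ℝ, ℂ) ∞ (fun x => P x i j))
    (h : ∀ x, asM (P x) * asM (P x) = asM (P x)) : ClosedForm (curvForm P) := by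
  refine closed_formOf hP (fun a u => cf_self (asM a) (asM u)) fun x u v w => ?_
  simp only [tcurv_apply]
  have hu := mD_idem hP h x u
  have hv := mD_idem hP h x v
  have hw := mD_idem hP h x w
  rw [cf_three (h x) hu hv hw, cf_three (h x) hv hu hw, cf_three (h x) hw hu hv]
  simp

end Pool.Agent.W_9986fc_h63.Old
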