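import Pool.Agent.W_9986fc_h63.Man2

set_option autoImplicit false

/-!
Linear combinations of forms; the charts: continuity of the data in a chart.
-/

namespace Pool.Agent.W_9986fc_h63.Old

open Pool.Agent.W_MP_d8b8b7_gt Pool.Agent.W_MP_d8b8b7_G1
open scoped Manifold ContDiff

variable {M : Type*} [TopologicalSpace M] [ChartedSpace E4 M] {K : ℕ}

/-- linear combination -/
noncomputable def lin2 (s t : ℝ) (α β : Form M 2) : Form M 2 := fun x => s • α x + t • β x

theorem locForm_lin2 (s t : ℝ) (α β : Form M 2) (c : M) :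
    locForm (lin2 s t α β) c = fun y => s • locForm α c y + t • locForm β c y := by
  funext y
  ext v
  rfl

theorem smooth_lin2 (s t : ℝ) {α β : Form M 2} (hα : SmoothForm α) (hβ : SmoothForm β) :
    SmoothForm (lin2 s t α β) := by
  intro c
  rw [locForm_lin2]
  exact ((hα c).const_smul s).add ((hβ c).const_smul t)

theorem closed_lin2 (s t : ℝ) {α β : Form M 2} (hα : SmoothForm α) (hβ : SmoothForm β)
    (cα : ClosedForm α) (cβ : ClosedForm β) :
    ClosedForm (lin2 s t α β) := by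
  intro c y hy
  have ho : IsOpen (extChartAt 𝓘(ℝ, E4) c).target := isOpen_extChartAt_target c
  have h1 : DifferentiableAt ℝ (locForm α c) y :=
    ((hα c).contDiffAt (ho.mem_nhds hy)).differentiableAt (by simp)
  have h2 : DifferentiableAt ℝ (locForm β c) y :=
    ((hβ c).contDiffAt (ho.mem_nhds hy)).differentiableAt (by simp)
  have h3 : extDeriv (locForm (lin2 s t α β) c) y =
      s • extDeriv (locForm α c) y + t • extDeriv (locForm β c) y := by
    rw [locForm_lin2]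
    have h4 := extDeriv_add (h1.const_smul s) (h2.const_smul t)
    rw [extDeriv_smul, extDeriv_smul] at h4
    exact h4
  rw [h3, cα c y hy, cβ c y hy]
  have e : locForm (0 : Form M 3) c y = 0 := by
    ext v
    rfl
  change s • locForm (0 : Form M 3) c y + t • locForm (0 : Form M 3) c y =
    locForm (0 : Form M 3) c y
  rw [e]
  simp

variable [IsManifold 𝓘(ℝ, E4) ∞ M] {P : M → W K}

theorem continuousOn_symm (c : M) :
    ContinuousOn (extChartAt 𝓘(ℝ, E4) c).symm (extChartAt 𝓘(ℝ, E4) c).target :=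
  continuousOn_extChartAt_symm c

/-- the derivative in the chart -/
theorem fderiv_chart {f : M → ℂ} (hf : ContMDiff 𝓘(ℝ, E4) 𝓘(ℝ, ℂ) ∞ f) (p : M) {y : EN 4}
    (hy : y ∈ (extChartAt 𝓘(ℝ, E4) p).target) (a : EN 4) :
    fderiv ℝ (fun y => f ((extChartAt 𝓘(ℝ, E4) p).symm y)) y a =
      (show E4 →L[ℝ] ℂ from mfderiv 𝓘(ℝ, E4) 𝓘(ℝ, ℂ) f ((extChartAt 𝓘(ℝ, E4) p).symm y))
        (dsymm p y a) := by
  have hM : IsManifold 𝓘(ℝ, E4) 1 M := IsManifold.of_le (n := ∞) (by norm_cast)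
  rw [← mfderiv_eq_fderiv]
  have h1 : MDifferentiableAt 𝓘(ℝ, E4) 𝓘(ℝ, ℂ) f ((extChartAt 𝓘(ℝ, E4) p).symm y) :=
    (hf.mdifferentiable (by simp)) _
  have h2 : MDifferentiableAt 𝓘(ℝ, E4) 𝓘(ℝ, E4) (extChartAt 𝓘(ℝ, E4) p).symm y := by
    have h := mdifferentiableWithinAt_extChartAt_symm (I := 𝓘(ℝ, E4)) (x := p) hy
    have hr : Set.range 𝓘(ℝ, E4) = Set.univ := ModelWithCorners.range_eq_univ _
    rw [hr, mdifferentiableWithinAt_univ] at h
    exact h
  have h3 := mfderiv_comp y h1 h2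
  have h4 := congrArg (fun A : E4 →L[ℝ] ℂ => A a) h3
  exact h4

theorem contDiffOn_chart {f : M → ℂ} (hf : ContMDiff 𝓘(ℝ, E4) 𝓘(ℝ, ℂ) ∞ f) (p : M) :
    ContDiffOn ℝ ∞ (fun y => f ((extChartAt 𝓘(ℝ, E4) p).symm y))
      (extChartAt 𝓘(ℝ, E4) p).target := by
  rw [← contMDiffOn_iff_contDiffOn]
  exact hf.comp_contMDiffOn (contMDiffOn_extChartAt_symm p)

theorem continuousOn_mD (hP : ∀ i j, ContMDiff 𝓘(ℝ, E4) 𝓘(ℝ, ℂ) ∞ (fun x => P x i j)) (p : M)
    (a : EN 4) : ContinuousOn (fun y => mD P ((extChartAt 𝓘(ℝ, E4) p).symm y) (dsymm p y a))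
      (extChartAt 𝓘(ℝ, E4) p).target := by
  refine continuousOn_pi.2 fun i => continuousOn_pi.2 fun j => ?_
  have h1 : ContinuousOn (fun y => fderiv ℝ (fun y => P ((extChartAt 𝓘(ℝ, E4) p).symm y) i j) y a)
      (extChartAt 𝓘(ℝ, E4) p).target :=
    ((contDiffOn_chart (hP i j) p).continuousOn_fderiv_of_isOpen
      (isOpen_extChartAt_target p) (by simp)).clm_apply continuousOn_const
  refine h1.congr fun y hy => ?_
  exact (fderiv_chart (hP i j) p hy a).symm

theorem continuousOn_P (hP : ∀ i j, ContMDiff 𝓘(ℝ, E4) 𝓘(ℝ, ℂ) ∞ (fun x => P x i j)) (p : M) :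
    ContinuousOn (fun y => P ((extChartAt 𝓘(ℝ, E4) p).symm y))
      (extChartAt 𝓘(ℝ, E4) p).target :=
  (contMDiff_W hP).continuous.comp_continuousOn (continuousOn_symm p)

end Pool.Agent.W_9986fc_h63.Old
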