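import Pool.Agent.W_9986fc_h63.Man3
import Pool.Agent.W_MP_d8b8b7_G1.BilOf

set_option autoImplicit false

/-!
The facts in the language of the statement.
-/

open scoped Manifold ContDiff

namespace Pool.Agent.W_9986fc_h63

open Pool.Agent.W_MP_d8b8b7_S

universe u

variable {X : Type u} [TopologicalSpace X] [ChartedSpace E4 X] {K N : ℕ} {P : X → Mat K}

/-! ### 2-forms as bilinear maps -/

/-- the standard `ℝ⁴` of Mathlib -/
abbrev EE : Type := EuclideanSpace ℝ (Fin 4)

/-- a 2-form at a point as a bilinear map -/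
noncomputable def bl (η : Form X 2) (x : X) : EE →L[ℝ] EE →L[ℝ] ℝ :=
  Pool.Agent.W_MP_d8b8b7_G1.bilOf (E := EE) (η x)

theorem bl_apply (η : Form X 2) (x : X) (u v : T x) : bl η x u v = val2 η x u v := rfl

/-- a 2-form at a point as a bilinear map on `T x` -/
noncomputable def bil (η : Form X 2) (x : X) : T x →ₗ[ℝ] T x →ₗ[ℝ] ℝ :=
  LinearMap.mk₂ ℝ (fun u v => val2 η x u v)
    (fun u u' v => congrArg (fun A : EE →L[ℝ] ℝ => A v) ((bl η x).map_add u u'))
    (fun c u v => congrArg (fun A : EE →L[ℝ] ℝ => A v) ((bl η x).map_smul c u))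
    (fun u v v' => (bl η x u).map_add v v')
    (fun c u v => (bl η x u).map_smul c v)

theorem bil_apply (η : Form X 2) (x : X) (u v : T x) : bil η x u v = val2 η x u v := rfl

theorem val2_self (η : Form X 2) (x : X) (v : T x) : val2 η x v v = 0 :=
  Pool.Agent.W_MP_d8b8b7_G1.bilOf_alt (E := EE) (η x) v

/-! ### the derivative of `P` -/

theorem dMat_herm (hP : IsBundle N P) (x : X) (v : T x) : (dMat P x v).IsHermitian :=
  @Old.mD_star K X _ (oldChart X) P hP.smooth hP.herm x v

theorem dMat_idem (hP : IsBundle N P) (x : X) (v : T x) :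
    P x * dMat P x v + dMat P x v * P x = dMat P x v :=
  @Old.mD_idem K X _ (oldChart X) P hP.smooth hP.idem x v

theorem dMat_add (hP : IsBundle N P) (x : X) (v w : T x) :
    dMat P x (v + w) = dMat P x v + dMat P x w :=
  @Old.mD_add K X _ (oldChart X) P hP.smooth x v w

theorem dMat_smul (hP : IsBundle N P) (x : X) (c : ℝ) (v : T x) :
    dMat P x (c • v) = c • dMat P x v :=
  @Old.mD_smul K X _ (oldChart X) P hP.smooth x c v

theorem dMat_zero (hP : IsBundle N P) (x : X) : dMat P x (0 : T x) = 0 := by
  have h := dMat_smul hP x 0 (0 : T x)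
  rw [zero_smul, zero_smul] at h
  exact h

/-- the form `s β + t i tr (ξ [dP, dP])` at a point as a bilinear map -/
noncomputable def hx (hP : IsBundle N P) (s : ℝ) (β : Form X 2) (x : X) (ξ : Mat K) :
    T x →ₗ[ℝ] T x →ₗ[ℝ] ℝ :=
  LinearMap.mk₂ ℝ (fun v w => s * val2 β x v w + curv P x ξ v w)
    (fun v v' w => by
      have h1 : val2 β x (v + v') w = val2 β x v w + val2 β x v' w :=
        (bil β x).map_add₂ v v' w
      have h2 : curv P x ξ (v + v') w = curv P x ξ v w + curv P x ξ v' w := by
        simp only [curv, dMat_add hP, add_mul, mul_add, mul_sub, Matrix.trace_add,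
          Matrix.trace_sub, Complex.add_im, Complex.sub_im]
        ring
      simp only [h1, h2]
      ring)
    (fun c v w => by
      have h1 : val2 β x (c • v) w = c * val2 β x v w := (bil β x).map_smul₂ c v w
      have h2 : curv P x ξ (c • v) w = c * curv P x ξ v w := by
        simp only [curv, dMat_smul hP]
        simp [mul_sub]
      simp only [h1, h2, smul_eq_mul]
      ring)
    (fun v w w' => by
      have h1 : val2 β x v (w + w') = val2 β x v w + val2 β x v w' := (bil β x v).map_add w w'
      have h2 : curv P x ξ v (w + w') = curv P x ξ v w + curv P x ξ v w' := by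
        simp only [curv, dMat_add hP, add_mul, mul_add, mul_sub, Matrix.trace_add,
          Matrix.trace_sub, Complex.add_im, Complex.sub_im]
        ring
      simp only [h1, h2]
      ring)
    (fun c v w => by
      have h1 : val2 β x v (c • w) = c * val2 β x v w := (bil β x v).map_smul c w
      have h2 : curv P x ξ v (c • w) = c * curv P x ξ v w := by
        simp only [curv, dMat_smul hP]
        simp [mul_sub]
      simp only [h1, h2, smul_eq_mul]
      ring)

theorem hx_apply (hP : IsBundle N P) (s : ℝ) (β : Form X 2) (x : X) (ξ : Mat K) (v w : T x) :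
    hx hP s β x ξ v w = s * val2 β x v w + curv P x ξ v w := rfl

theorem curv_self (P : X → Mat K) (x : X) (ξ : Mat K) (v : T x) : curv P x ξ v v = 0 := by
  simp [curv]

theorem hx_self (hP : IsBundle N P) (s : ℝ) (β : Form X 2) (x : X) (ξ : Mat K) (v : T x) :
    hx hP s β x ξ v v = 0 := by
  rw [hx_apply, val2_self, curv_self]
  ring

/-! ### forms on `X` -/

section

variable [hX : IsManifold I4 ∞ X]

theorem exists_form (hP : IsBundle N P) (s t : ℝ) {β : Form X 2} (h1 : SmoothForm β)
    (h2 : ClosedForm β) : ∃ Ω : Form X 2, SmoothForm Ω ∧ ClosedForm Ω ∧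
      ∀ (x : X) (v w : T x), val2 Ω x v w = s * val2 β x v w + t * curv P x (P x) v w := by
  letI : ChartedSpace (EuclideanSpace ℝ (Fin 4)) X := oldChart X
  have hM : @IsManifold ℝ _ _ _ _ _ _ 𝓘(ℝ, EuclideanSpace ℝ (Fin 4)) ∞ X _ (oldChart X) := hX
  refine ⟨newForm (@Old.lin2 X _ (oldChart X) s t (oldForm β)
    (@Old.curvForm K X _ (oldChart X) P)), ?_, ?_, ?_⟩
  · exact @Old.smooth_lin2 X _ (oldChart X) s t _ _ h1
      (@Old.smooth_curvForm K X _ (oldChart X) P hM hP.smooth)
  · exact @Old.closed_lin2 X _ (oldChart X) s t _ _ h1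
      (@Old.smooth_curvForm K X _ (oldChart X) P hM hP.smooth) h2
      (@Old.closed_curvForm K X _ (oldChart X) P hM hP.smooth hP.idem)
  · intro x v w
    have h := @Old.curvForm_apply K X _ (oldChart X) P hP.smooth x v w
    have e : curv P x (P x) v w = Old.cf (Old.asM (P x)) (Old.asM (@Old.mD X _ (oldChart X) K P x v))
        (Old.asM (@Old.mD X _ (oldChart X) K P x w)) := rfl
    rw [e, ← h]
    rfl

end

end Pool.Agent.W_9986fc_h63
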