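import Pool.Agent.W_9986fc_h63.Man4
import Pool.Agent.W_9986fc_h63.ND
import Pool.Agent.W_9986fc_h42.Defs

set_option autoImplicit false

/-!
The data in a chart: bases of the tangent spaces, continuity.
-/

open scoped Manifold ContDiff

namespace Pool.Agent.W_9986fc_h63

open Pool.Agent.W_MP_d8b8b7_S

universe u

variable {X : Type u} [TopologicalSpace X] [ChartedSpace E4 X] {K N : ℕ} {P : X → Mat K}

/-- the standard basis of `ℝ⁴` -/
noncomputable def e4 (i : Fin 4) : EE := EuclideanSpace.single i (1 : ℝ)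

/-- the standard basis of `T x` -/
noncomputable def std (x : X) : Module.Basis (Fin 4) ℝ (T x) :=
  (show Module.Basis (Fin 4) ℝ EE from (EuclideanSpace.basisFun (Fin 4) ℝ).toBasis)

theorem std_apply (x : X) (i : Fin 4) : std x i = (show T x from e4 i) := by
  have h : (EuclideanSpace.basisFun (Fin 4) ℝ).toBasis i = e4 i := by
    simp [e4]
  exact h

/-- the derivative of the inverse chart -/
noncomputable def dI (c : X) (y : EE) : EE →L[ℝ] EE := dInv c y

theorem isOpen_dom (c : X) : IsOpen (dom c) :=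
  @isOpen_extChartAt_target ℝ EE X EE _ _ _ _ _ 𝓘(ℝ, EE) (oldChart X) _ c

theorem continuousOn_inv (c : X) : ContinuousOn (inv c) (dom c) :=
  @continuousOn_extChartAt_symm ℝ EE X EE _ _ _ _ _ 𝓘(ℝ, EE) (oldChart X) c

section

variable [hX : IsManifold I4 ∞ X]

theorem dI_injective (c : X) {y : EE} (hy : y ∈ dom c) : Function.Injective (dI c y) := by
  letI : ChartedSpace (EuclideanSpace ℝ (Fin 4)) X := oldChart X
  have hM : @IsManifold ℝ _ _ _ _ _ _ 𝓘(ℝ, EuclideanSpace ℝ (Fin 4)) ∞ X _ (oldChart X) := hX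
  intro a b hab
  have h1 := @Pool.Agent.W_MP_d8b8b7_G1.dext_dsymm X _ (oldChart X) hM c y hy a
  have h2 := @Pool.Agent.W_MP_d8b8b7_G1.dext_dsymm X _ (oldChart X) hM c y hy b
  have h3 : @Pool.Agent.W_MP_d8b8b7_G1.dsymm X _ (oldChart X) c y a =
      @Pool.Agent.W_MP_d8b8b7_G1.dsymm X _ (oldChart X) c y b := hab
  rw [← h1, h3, h2]

/-- the basis of the tangent space given by the chart -/
noncomputable def bas (c : X) {y : EE} (hy : y ∈ dom c) : Module.Basis (Fin 4) ℝ (T (inv c y)) :=
  (show Module.Basis (Fin 4) ℝ EE from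
    (EuclideanSpace.basisFun (Fin 4) ℝ).toBasis.map
      (LinearEquiv.ofInjectiveEndo (dI c y).toLinearMap (dI_injective c hy)))

theorem bas_apply (c : X) {y : EE} (hy : y ∈ dom c) (i : Fin 4) :
    bas c hy i = (show T (inv c y) from dI c y (e4 i)) := by
  have h : (show Module.Basis (Fin 4) ℝ EE from
      (EuclideanSpace.basisFun (Fin 4) ℝ).toBasis.map
      (LinearEquiv.ofInjectiveEndo (dI c y).toLinearMap (dI_injective c hy))) i =
      dI c y (e4 i) := by
    simp [e4]
  exact h

theorem continuousOn_dMat (hP : IsBundle N P) (c : X) (a : EE) :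
    ContinuousOn (fun y => dMat P (inv c y) (show T (inv c y) from dI c y a)) (dom c) := by
  letI : ChartedSpace (EuclideanSpace ℝ (Fin 4)) X := oldChart X
  have hM : @IsManifold ℝ _ _ _ _ _ _ 𝓘(ℝ, EuclideanSpace ℝ (Fin 4)) ∞ X _ (oldChart X) := hX
  exact @Old.continuousOn_mD X _ (oldChart X) K hM P hP.smooth c a

theorem continuousOn_proj (hP : IsBundle N P) (c : X) :
    ContinuousOn (fun y => P (inv c y)) (dom c) := by
  letI : ChartedSpace (EuclideanSpace ℝ (Fin 4)) X := oldChart X
  have hM : @IsManifold ℝ _ _ _ _ _ _ 𝓘(ℝ, EuclideanSpace ℝ (Fin 4)) ∞ X _ (oldChart X) := hX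
  exact @Old.continuousOn_P X _ (oldChart X) K hM P hP.smooth c

end

theorem continuousOn_val2 {β : Form X 2} (h1 : SmoothForm β) (c : X) (a b : EE) :
    ContinuousOn (fun y => val2 β (inv c y) (show T (inv c y) from dI c y a)
      (show T (inv c y) from dI c y b)) (dom c) := by
  have h := Pool.Agent.W_MP_d8b8b7_G1.BilOf_contDiffOn_eval (E := EE) (F := EE)
    (c := locForm β c) (h1 c) ![a, b]
  refine h.continuousOn.congr fun y hy => ?_
  have e : (fun i => dI c y (![a, b] i)) = ![dI c y a, dI c y b] := by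
    funext i
    fin_cases i <;> rfl
  have e2 : (show EE [⋀^Fin 2]→L[ℝ] ℝ from locForm β c y) ![a, b] =
      (show EE [⋀^Fin 2]→L[ℝ] ℝ from β (inv c y)) (fun i => dI c y (![a, b] i)) := rfl
  rw [e] at e2
  exact e2.symm

end Pool.Agent.W_9986fc_h63
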