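import Pool.Agent.W_9986fc_h63.Pt
import Pool.Agent.W_9986fc_h42.Rig
import Pool.Agent.W_9986fc_h42.FatP
import Pool.Agent.W_9986fc_h42.Clp

set_option autoImplicit false

/-!
Rank at least three: rigidity.  Rank two: the set of inner points is clopen in `X`.
-/

open scoped Manifold ContDiff Topology

namespace Pool.Agent.W_9986fc_h63

open Pool.Agent.W_MP_d8b8b7_S

universe u

variable {K N : ℕ} {X : Type u} [TopologicalSpace X] [ChartedSpace E4 X] {P : X → Mat K}

theorem isProj_of (hP : IsBundle N P) (x : X) : CF42.IsProj (P x) N :=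
  ⟨hP.herm x, hP.idem x, hP.rank x⟩

/-- nondegeneracy over the Grassmannian in terms of the Pfaffian -/
theorem pf_ne_of_coupling (hP : IsBundle N P) {β : Form X 2} {k : ℕ} (hk : 1 ≤ k)
    (hc : GrSymplectic k P β) (x : X) (f : Module.Basis (Fin 4) ℝ (T x)) :
    ∀ Q ∈ CF42.Gr (P x) k, CF42.pf (CF42.arr (Mx P (1 / (k : ℝ)) β x f) Q) ≠ 0 := by
  intro Q hQ
  have hQ' := mem_Gr_iff.1 hQ
  refine (nondeg_Mx hP (1 / (k : ℝ)) β x f hQ'.le).1 ?_
  have h := (coupling_iff hP β k).1 hc x Q hQ'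
  have e : 1 / (k : ℝ) * Q.trace.re = 1 := by
    rw [hQ'.rank]
    have : (k : ℝ) ≠ 0 := by positivity
    simp [this]
  rw [e]
  exact h

theorem main_rigid (hP : IsBundle N P) (hN : 3 ≤ N) {β : Form X 2} {k : ℕ} (hk : 1 ≤ k)
    (hkN : k < N) (hc : GrSymplectic k P β) (x : X) (v : T x)
    (hv : ∀ w : T x, 1 * val2 β x v w + ((k : ℝ) / N) * curv P x (P x) v w = 0) : v = 0 := by
  have h1 := CF42.rigid (isProj_of hP x) hN hk hkN (hermAlt_Mx hP (1 / (k : ℝ)) β x (std x))
    (pf_ne_of_coupling hP hk hc x (std x))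
  have h2 := (nondeg_Mx hP (1 / (k : ℝ)) β x (std x) (hP.idem x)).2 h1
  refine h2 v fun w => ?_
  have hk0 : (k : ℝ) ≠ 0 := by positivity
  have hN0 : (N : ℝ) ≠ 0 := by positivity
  have h3 := hv w
  rw [hx_apply, hP.rank x]
  have e : (1 / (k : ℝ) * ((N : ℂ)).re) * val2 β x v w + curv P x (P x) v w =
      ((N : ℝ) / k) * (1 * val2 β x v w + ((k : ℝ) / N) * curv P x (P x) v w) := by
    simp
    field_simp
  rw [e, h3, mul_zero]

/-- a set is open if it is open in all charts -/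
theorem isOpen_of_charts {S : Set X}
    (h : ∀ c : X, IsOpen {y : {y : EE // y ∈ dom c} | inv c (y : EE) ∈ S}) : IsOpen S := by
  letI : ChartedSpace (EuclideanSpace ℝ (Fin 4)) X := oldChart X
  rw [isOpen_iff_mem_nhds]
  intro x hxS
  obtain ⟨t, ht, hts⟩ := isOpen_induced_iff.1 (h x)
  have hcont : ContinuousAt (extChartAt 𝓘(ℝ, EE) x) x := continuousAt_extChartAt x
  have hsrc : (extChartAt 𝓘(ℝ, EE) x).source ∈ 𝓝 x := extChartAt_source_mem_nhds x
  have hx0 : x ∈ (extChartAt 𝓘(ℝ, EE) x).source := mem_extChartAt_source x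
  have hmem : extChartAt 𝓘(ℝ, EE) x x ∈ t := by
    have h1 : extChartAt 𝓘(ℝ, EE) x x ∈ dom x := (extChartAt 𝓘(ℝ, EE) x).map_source hx0
    have h2 : (⟨extChartAt 𝓘(ℝ, EE) x x, h1⟩ : {y : EE // y ∈ dom x}) ∈
        {y : {y : EE // y ∈ dom x} | inv x (y : EE) ∈ S} := by
      have h3 : inv x (extChartAt 𝓘(ℝ, EE) x x) = x := (extChartAt 𝓘(ℝ, EE) x).left_inv hx0
      change inv x (extChartAt 𝓘(ℝ, EE) x x) ∈ S
      rw [h3]
      exact hxS
    rw [← hts] at h2
    exact h2
  filter_upwards [hcont.preimage_mem_nhds (ht.mem_nhds hmem), hsrc] with z hz1 hz2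
  have h1 : extChartAt 𝓘(ℝ, EE) x z ∈ dom x := (extChartAt 𝓘(ℝ, EE) x).map_source hz2
  have h2 : (⟨extChartAt 𝓘(ℝ, EE) x z, h1⟩ : {y : EE // y ∈ dom x}) ∈
      {y : {y : EE // y ∈ dom x} | inv x (y : EE) ∈ S} := by
    rw [← hts]
    exact hz1
  have h3 : inv x (extChartAt 𝓘(ℝ, EE) x z) = z := (extChartAt 𝓘(ℝ, EE) x).left_inv hz2
  have h4 : inv x (extChartAt 𝓘(ℝ, EE) x z) ∈ S := h2
  rw [h3] at h4
  exact h4

theorem bil_sum {V : Type*} [AddCommGroup V] [Module ℝ V] (b : V →ₗ[ℝ] V →ₗ[ℝ] ℝ)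
    (f : Fin 4 → V) (c d : Fin 4 → ℝ) : b (∑ i, c i • f i) (∑ j, d j • f j) =
      ∑ i, ∑ j, c i * d j * b (f i) (f j) := by
  have h1 : b (∑ i, c i • f i) = ∑ i, c i • b (f i) := by
    rw [map_sum]
    exact Finset.sum_congr rfl fun i _ => map_smul b (c i) (f i)
  rw [h1, LinearMap.sum_apply]
  refine Finset.sum_congr rfl fun i _ => ?_
  rw [map_sum]
  refine Finset.sum_congr rfl fun j _ => ?_
  rw [map_smul, LinearMap.smul_apply]
  simp only [smul_eq_mul]
  ring

/-- change of basis -/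
theorem pf_change (hP : IsBundle N P) (s : ℝ) (β : Form X 2) (x : X)
    (f g : Module.Basis (Fin 4) ℝ (T x)) : ∃ d : ℝ, d ≠ 0 ∧ ∀ ξ : Mat K, P x * ξ = ξ →
      CF42.pf (CF42.arr (Mx P s β x g) ξ) = d * CF42.pf (CF42.arr (Mx P s β x f) ξ) := by
  refine ⟨(f.toMatrix g).det, ?_, fun ξ hξ => ?_⟩
  · have := f.invertibleToMatrix g
    exact (Matrix.isUnit_det_of_invertible (f.toMatrix g)).ne_zero
  · rw [arr_Mx hP s β x f hξ, arr_Mx hP s β x g hξ]
    rw [← CF42.pf_trans (f.toMatrix g) _ (fun i => hx_self hP _ β x ξ _)]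
    · congr 1
      funext i j
      have h1 : ∀ i, g i = ∑ a, f.toMatrix g a i • f a := fun i => (f.sum_toMatrix_smul_self g i).symm
      conv_lhs => rw [h1 i, h1 j]
      exact bil_sum (hx hP (s * ξ.trace.re) β x ξ) f (fun a => f.toMatrix g a i)
        (fun a => f.toMatrix g a j)
    · intro i j
      have h := hx_self hP (s * ξ.trace.re) β x ξ (f i + f j)
      simp only [map_add, LinearMap.add_apply, hx_self] at h
      linarith

section

variable [hX : IsManifold I4 ∞ X]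

/-- inner points -/
noncomputable def InX (P : X → Mat K) (β : Form X 2) : Set X :=
  CF42.Ins P (fun x => Mx P 1 β x (std x))

theorem chart_clopen (hP : IsBundle 2 P) {β : Form X 2} (hβ : SmoothForm β)
    (hc : GrSymplectic 1 P β) (c : X) :
    IsClopen {y : {y : EE // y ∈ dom c} | inv c (y : EE) ∈ InX P β} := by
  have key := CF42.Ins_clopen (Y := {y : EE // y ∈ dom c}) (P := fun y => P (inv c (y : EE)))
    (M := fun y => Mx P 1 β (inv c (y : EE)) (bas c y.2))
    (continuousOn_iff_continuous_restrict.1 (continuousOn_proj hP c))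
    (fun y => isProj_of hP _) ?_ (fun y => hermAlt_Mx hP 1 β _ _) ?_
  · have e : CF42.Ins (fun y : {y : EE // y ∈ dom c} => P (inv c (y : EE)))
        (fun y => Mx P 1 β (inv c (y : EE)) (bas c y.2)) =
        {y : {y : EE // y ∈ dom c} | inv c (y : EE) ∈ InX P β} := by
      ext y
      obtain ⟨d, hd, h⟩ := pf_change hP 1 β (inv c (y : EE)) (std _) (bas c y.2)
      constructor
      · rintro ⟨ρ, h1, h2, h3, Q, hQ, h4⟩
        refine ⟨ρ, h1, h2, h3, Q, hQ, ?_⟩
        have h4' : CF42.pf (CF42.arr (Mx P 1 β (inv c (y : EE)) (bas c y.2)) ρ) *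
          CF42.pf (CF42.arr (Mx P 1 β (inv c (y : EE)) (bas c y.2)) Q) ≤ 0 := h4
        rw [h ρ h3, h Q hQ.2.2.2] at h4'
        have h5 : 0 < d * d := mul_self_pos.2 hd
        by_contra h6
        have h7 := mul_pos h5 (not_le.1 h6)
        linarith [h7, h4']
      · rintro ⟨ρ, h1, h2, h3, Q, hQ, h4⟩
        refine ⟨ρ, h1, h2, h3, Q, hQ, ?_⟩
        change CF42.pf (CF42.arr (Mx P 1 β (inv c (y : EE)) (bas c y.2)) ρ) *
          CF42.pf (CF42.arr (Mx P 1 β (inv c (y : EE)) (bas c y.2)) Q) ≤ 0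
        rw [h ρ h3, h Q hQ.2.2.2]
        have h5 : 0 < d * d := mul_self_pos.2 hd
        have h7 := mul_nonpos_iff.2 (Or.inl ⟨h5.le, h4⟩)
        linarith [h7]
    rw [e] at key
    exact key
  · intro i j
    have hPc : Continuous fun y : {y : EE // y ∈ dom c} => P (inv c (y : EE)) :=
      continuousOn_iff_continuous_restrict.1 (continuousOn_proj hP c)
    have hv : Continuous fun y : {y : EE // y ∈ dom c} =>
        val2 β (inv c (y : EE)) (bas c y.2 i) (bas c y.2 j) := by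
      simp only [bas_apply]
      exact continuousOn_iff_continuous_restrict.1 (continuousOn_val2 hβ c (e4 i) (e4 j))
    have hD : ∀ i, Continuous fun y : {y : EE // y ∈ dom c} =>
        dMat P (inv c (y : EE)) (bas c y.2 i) := by
      intro i
      simp only [bas_apply]
      exact continuousOn_iff_continuous_restrict.1 (continuousOn_dMat hP c (e4 i))
    have h1 := (Complex.continuous_ofReal.comp (continuous_const (y := (1 : ℝ)) |>.mul hv)).smul hPc
    have h2 := (((hD i).matrix_mul (hD j)).sub ((hD j).matrix_mul (hD i))).const_smul (-Complex.I)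
    exact h1.add h2
  · intro y Q hQ
    have h := pf_ne_of_coupling hP (le_refl 1) hc (inv c (y : EE)) (bas c y.2) Q hQ
    simpa using h

theorem InX_clopen (hP : IsBundle 2 P) {β : Form X 2} (hβ : SmoothForm β)
    (hc : GrSymplectic 1 P β) : IsClopen (InX P β) := by
  constructor
  · rw [← isOpen_compl_iff]
    refine isOpen_of_charts fun c => ?_
    exact (chart_clopen hP hβ hc c).compl.isOpen
  · exact isOpen_of_charts fun c => (chart_clopen hP hβ hc c).isOpen

end

end Pool.Agent.W_9986fc_h63
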