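import Pool.Agent.W_9986fc_h63.Man6

set_option autoImplicit false

/-!
Rank two: the dichotomy.  Converses: fat, and `t Ω` with `t` large.
-/

open scoped Manifold ContDiff Topology Matrix

namespace Pool.Agent.W_9986fc_h63

open Pool.Agent.W_MP_d8b8b7_S

universe u

variable {K N : ℕ} {X : Type u} [TopologicalSpace X] [ChartedSpace E4 X] {P : X → Mat K}

theorem exists_line (hP : IsBundle 2 P) (x : X) : ∃ Q, Q ∈ CF42.Gr (P x) 1 := by
  obtain ⟨F, h1, h2, h3⟩ := CF42.exists_frame (isProj_of hP x).mem_Gr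
  let G : Matrix (Fin K) (Fin 1) ℂ := Matrix.of fun i _ => F i 0
  refine ⟨G * Gᴴ, CF42.frame_mem_of_orthonormal ?_ ?_⟩
  · ext i j
    have h := congrFun (congrFun h3 i) 0
    simpa [Matrix.mul_apply, G] using h
  · ext i j
    have h := congrFun (congrFun h1 0) 0
    have hi : i = 0 := Subsingleton.elim _ _
    have hj : j = 0 := Subsingleton.elim _ _
    subst hi hj
    simpa [Matrix.mul_apply, G] using h

open scoped ComplexOrder in
theorem psd_proj {Q : Mat K} (h1 : Q.IsHermitian) (h2 : Q * Q = Q) : CF42.Psd Q := by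
  refine ⟨h1, fun v => ?_⟩
  have h3 : star v ⬝ᵥ Q *ᵥ v = star (Q *ᵥ v) ⬝ᵥ (Q *ᵥ v) := by
    rw [Matrix.star_mulVec, h1.eq, ← Matrix.dotProduct_mulVec, Matrix.mulVec_mulVec, h2]
  rw [h3]
  have h4 : 0 ≤ star (Q *ᵥ v) ⬝ᵥ (Q *ᵥ v) := dotProduct_star_self_nonneg _
  exact (Complex.le_def.1 h4).1

theorem proj_ne_zero (hP : IsBundle N P) (hN : N ≠ 0) (x : X) : P x ≠ 0 := by
  intro h
  have h1 := hP.rank x
  rw [h, Matrix.trace_zero] at h1
  exact hN (by exact_mod_cast h1.symm)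

theorem curv_sub_smul (P : X → Mat K) (x : X) (A B : Mat K) (c : ℝ) (v w : T x) :
    curv P x (A - (c : ℂ) • B) v w = curv P x A v w - c * curv P x B v w := by
  simp only [curv, sub_mul, Matrix.smul_mul, Matrix.trace_sub, Matrix.trace_smul, Complex.sub_im,
    smul_eq_mul, Complex.mul_im, Complex.ofReal_re, Complex.ofReal_im, zero_mul, add_zero]

section

variable [hX : IsManifold I4 ∞ X]

theorem dichotomy [ConnectedSpace X] (hP : IsBundle 2 P) {β : Form X 2} (hβ : SmoothForm β)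
    (hc : GrSymplectic 1 P β) :
    (∀ (x : X) (v : T x),
      (∀ w : T x, 1 * val2 β x v w + (1 / 2 : ℝ) * curv P x (P x) v w = 0) → v = 0) ∨ Fat P := by
  rcases isClopen_iff.1 (InX_clopen hP hβ hc) with h | h
  · left
    intro x v hv
    obtain ⟨Q, hQ⟩ := exists_line hP x
    have hx0 : x ∉ InX P β := by rw [h]; exact Set.notMem_empty x
    have h1 : CF42.pf (CF42.arr (Mx P 1 β x (std x)) (P x)) ≠ 0 := by
      intro h0
      apply hx0
      exact ⟨P x, psd_proj (hP.herm x) (hP.idem x), proj_ne_zero hP (by norm_num) x, hP.idem x, Q,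
        hQ, by
          change CF42.pf (CF42.arr (Mx P 1 β x (std x)) (P x)) *
            CF42.pf (CF42.arr (Mx P 1 β x (std x)) Q) ≤ 0
          rw [h0, zero_mul]⟩
    have h2 := (nondeg_Mx hP 1 β x (std x) (hP.idem x)).2 h1
    refine h2 v fun w => ?_
    rw [hx_apply, hP.rank x]
    have e : (1 * ((2 : ℕ) : ℂ).re) * val2 β x v w + curv P x (P x) v w =
        2 * (1 * val2 β x v w + (1 / 2 : ℝ) * curv P x (P x) v w) := by
      simp
      ring
    rw [e, hv w, mul_zero]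
  · right
    intro x ξ h1 h2 h3 h4 v hv
    have hx0 : x ∈ InX P β := by rw [h]; exact Set.mem_univ x
    obtain ⟨ρ, hρ1, hρ2, hρ3, Q, hQ, hle⟩ := hx0
    have hQs : ∀ Q ∈ CF42.Gr (P x) 1, CF42.pf (CF42.arr (Mx P 1 β x (std x)) Q) ≠ 0 := by
      intro Q hQ
      have h := pf_ne_of_coupling hP (le_refl 1) hc x (std x) Q hQ
      simpa using h
    have h5 := CF42.fat_of_inner (isProj_of hP x) (hermAlt_Mx hP 1 β x (std x)) hQs hρ1 hρ2 hρ3
      hQ hle h1 h2 h3 h4
    have h6 := (nondeg_Mx hP 1 β x (std x) h2).2 h5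
    refine h6 v fun w => ?_
    rw [hx_apply, h3, hv w]
    simp

theorem of_fat (hP : IsBundle 2 P) (hF : Fat P) :
    ∃ β : Form X 2, SmoothForm β ∧ ClosedForm β ∧ GrSymplectic 1 P β := by
  letI : ChartedSpace (EuclideanSpace ℝ (Fin 4)) X := oldChart X
  have hM : @IsManifold ℝ _ _ _ _ _ _ 𝓘(ℝ, EuclideanSpace ℝ (Fin 4)) ∞ X _ (oldChart X) := hX
  obtain ⟨β, h1, h2, h3⟩ := exists_form hP 0 (-(1 / 2)) (β := newForm (@Old.curvForm K X _ (oldChart X) P))
    (@Old.smooth_curvForm K X _ (oldChart X) P hM hP.smooth)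
    (@Old.closed_curvForm K X _ (oldChart X) P hM hP.smooth hP.idem)
  refine ⟨β, h1, h2, (coupling_iff hP β 1).2 fun x Q hQ v hv => ?_⟩
  refine hF x (Q - ((1 / 2 : ℝ) : ℂ) • P x) ?_ ?_ ?_ ?_ v fun w => ?_
  · have e1 : Qᴴ = Q := hQ.herm
    have e2 : (P x)ᴴ = P x := hP.herm x
    change (Q - ((1 / 2 : ℝ) : ℂ) • P x)ᴴ = _
    rw [Matrix.conjTranspose_sub, Matrix.conjTranspose_smul, e1, e2]
    simp
  · rw [mul_sub, Matrix.mul_smul, hQ.le, hP.idem x]
  · rw [Matrix.trace_sub, Matrix.trace_smul, hQ.rank, hP.rank x]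
    simp
  · intro h0
    have h4 : Q = ((1 / 2 : ℝ) : ℂ) • P x := sub_eq_zero.1 h0
    have h5 := hQ.idem
    rw [h4, Matrix.smul_mul, Matrix.mul_smul, hP.idem x, smul_smul] at h5
    have h6 := congrArg Matrix.trace h5
    rw [Matrix.trace_smul, Matrix.trace_smul, hP.rank x] at h6
    norm_num at h6
  · rw [curv_sub_smul]
    have h4 := hv w
    rw [hx_apply, h3 x v w] at h4
    linarith

/-! ### large multiples of a symplectic form -/

omit [TopologicalSpace X] [ChartedSpace E4 X] hX in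
theorem pf_large {a F : Fin 4 → Fin 4 → ℝ} {c0 A C t : ℝ} (hc0 : 0 < c0) (h0 : c0 ≤ |CF42.pf a|)
    (ha : ∀ i j, |a i j| ≤ A) (hF : ∀ i j, |F i j| ≤ C)
    (ht : 1 + (6 * (A * C) + 3 * (C * C)) / c0 ≤ t) :
    CF42.pf (fun i j => t * a i j + F i j) ≠ 0 := by
  have hA : 0 ≤ A := le_trans (abs_nonneg _) (ha 0 0)
  have hC : 0 ≤ C := le_trans (abs_nonneg _) (hF 0 0)
  have hm : ∀ i j k l, |a i j * F k l| ≤ A * C := fun i j k l => by
    rw [abs_mul]; exact mul_le_mul (ha i j) (hF k l) (abs_nonneg _) hA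
  have hf : ∀ i j k l, |F i j * F k l| ≤ C * C := fun i j k l => by
    rw [abs_mul]; exact mul_le_mul (hF i j) (hF k l) (abs_nonneg _) hC
  set D : ℝ := 6 * (A * C) + 3 * (C * C) with hD
  have hD0 : 0 ≤ D := by positivity
  have ht1 : 1 ≤ t := by
    have : 0 ≤ D / c0 := by positivity
    linarith
  have htc : c0 + D ≤ t * c0 := by
    have h1 := mul_le_mul_of_nonneg_right ht hc0.le
    have h2 : (1 + D / c0) * c0 = c0 + D := by field_simp
    linarith
  intro h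
  have e : CF42.pf (fun i j => t * a i j + F i j) = t * t * CF42.pf a +
      (t * ((a 0 1 * F 2 3 + a 2 3 * F 0 1) - (a 0 2 * F 1 3 + a 1 3 * F 0 2) +
        (a 0 3 * F 1 2 + a 1 2 * F 0 3)) + (F 0 1 * F 2 3 - F 0 2 * F 1 3 + F 0 3 * F 1 2)) := by
    unfold CF42.pf
    ring
  rw [e] at h
  have h1 : t * t * CF42.pf a = - (t * ((a 0 1 * F 2 3 + a 2 3 * F 0 1) -
      (a 0 2 * F 1 3 + a 1 3 * F 0 2) + (a 0 3 * F 1 2 + a 1 2 * F 0 3)) +
      (F 0 1 * F 2 3 - F 0 2 * F 1 3 + F 0 3 * F 1 2)) := by linarith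
  have h2 : t * t * |CF42.pf a| ≤ t * (6 * (A * C)) + 3 * (C * C) := by
    have h3 := congrArg abs h1
    rw [abs_mul, abs_of_nonneg (mul_self_nonneg t), abs_neg] at h3
    rw [h3]
    refine (abs_add_le _ _).trans (add_le_add ?_ ?_)
    · rw [abs_mul, abs_of_nonneg (by linarith : (0 : ℝ) ≤ t)]
      refine mul_le_mul_of_nonneg_left ?_ (by linarith)
      rw [abs_le]
      constructor <;>
      linarith [(abs_le.1 (hm 0 1 2 3)).1, (abs_le.1 (hm 0 1 2 3)).2, (abs_le.1 (hm 2 3 0 1)).1,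
        (abs_le.1 (hm 2 3 0 1)).2, (abs_le.1 (hm 0 2 1 3)).1, (abs_le.1 (hm 0 2 1 3)).2,
        (abs_le.1 (hm 1 3 0 2)).1, (abs_le.1 (hm 1 3 0 2)).2, (abs_le.1 (hm 0 3 1 2)).1,
        (abs_le.1 (hm 0 3 1 2)).2, (abs_le.1 (hm 1 2 0 3)).1, (abs_le.1 (hm 1 2 0 3)).2]
    · rw [abs_le]
      constructor <;>
      linarith [(abs_le.1 (hf 0 1 2 3)).1, (abs_le.1 (hf 0 1 2 3)).2, (abs_le.1 (hf 0 2 1 3)).1,
        (abs_le.1 (hf 0 2 1 3)).2, (abs_le.1 (hf 0 3 1 2)).1, (abs_le.1 (hf 0 3 1 2)).2]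
  have h3 : t * t * c0 ≤ t * t * |CF42.pf a| := mul_le_mul_of_nonneg_left h0 (mul_self_nonneg t)
  have h4 : t * (6 * (A * C)) + 3 * (C * C) ≤ t * D := by
    rw [hD]
    nlinarith [mul_nonneg hC hC]
  have h5 : t * (c0 + D) ≤ t * (t * c0) := mul_le_mul_of_nonneg_left htc (by linarith)
  nlinarith

omit [TopologicalSpace X] [ChartedSpace E4 X] hX in
theorem entry_le {Q : Mat K} (h1 : Q.IsHermitian) (h2 : Q * Q = Q) (a b : Fin K) : ‖Q a b‖ ≤ 1 := by
  have key : ∀ a b, ‖Q a b‖ ^ 2 ≤ (Q a a).re := by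
    intro a b
    have h3 := congrFun (congrFun h2 a) a
    rw [Matrix.mul_apply] at h3
    have h4 : ∀ c, Q a c * Q c a = ((‖Q a c‖ ^ 2 : ℝ) : ℂ) := by
      intro c
      have h5 : Q c a = star (Q a c) := by
        have := congrFun (congrFun h1.eq c) a
        rw [Matrix.conjTranspose_apply] at this
        exact this.symm
      rw [h5, Complex.star_def, Complex.mul_conj, Complex.normSq_eq_norm_sq]
    simp only [h4] at h3
    rw [← Complex.ofReal_sum] at h3
    have h6 := congrArg Complex.re h3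
    rw [Complex.ofReal_re] at h6
    rw [← h6]
    exact Finset.single_le_sum (f := fun c => ‖Q a c‖ ^ 2) (fun c _ => sq_nonneg _)
      (Finset.mem_univ b)
  have h3 : (Q a a).re ≤ ‖Q a a‖ := Complex.re_le_norm _
  have h4 := key a a
  have h5 : ‖Q a a‖ ≤ 1 := by
    by_contra h
    push Not at h
    nlinarith [norm_nonneg (Q a a)]
  have h6 := key a b
  by_contra h
  push Not at h
  nlinarith [norm_nonneg (Q a b)]

end

end Pool.Agent.W_9986fc_h63
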