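import Pool.Agent.W_9986fc_h63.Man7

set_option autoImplicit false

/-!
Large multiples of a symplectic form are coupling symplectic; the main theorem.
-/

open scoped Manifold ContDiff Topology Matrix

namespace Pool.Agent.W_9986fc_h63

open Pool.Agent.W_MP_d8b8b7_S

universe u

variable {K N : ℕ} {X : Type u} [TopologicalSpace X] [ChartedSpace E4 X] {P : X → Mat K}

/-- the sum of the absolute values of the entries -/
noncomputable def asum (A : Mat K) : ℝ := ∑ a, ∑ b, ‖A a b‖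

theorem continuous_asum : Continuous (asum (K := K)) := by
  unfold asum
  refine continuous_finsetSum _ fun a _ => continuous_finsetSum _ fun b _ => ?_
  exact (continuous_norm.comp (Continuous.matrix_elem continuous_id a b))

theorem im_trace_le {Q A : Mat K} (hQ : ∀ a b, ‖Q a b‖ ≤ 1) : |(Matrix.trace (Q * A)).im| ≤ asum A := by
  refine (Complex.abs_im_le_norm _).trans ?_
  rw [Matrix.trace]
  refine (norm_sum_le _ _).trans ?_
  have h : ∀ a, ‖(Q * A).diag a‖ ≤ ∑ b, ‖A b a‖ := by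
    intro a
    rw [Matrix.diag_apply, Matrix.mul_apply]
    refine (norm_sum_le _ _).trans (Finset.sum_le_sum fun b _ => ?_)
    rw [norm_mul]
    exact (mul_le_mul_of_nonneg_right (hQ a b) (norm_nonneg _)).trans (by rw [one_mul])
  refine (Finset.sum_le_sum fun a _ => h a).trans ?_
  rw [Finset.sum_comm]
  exact le_refl _

theorem bound_lemma {Y : Type*} [TopologicalSpace Y] {S : Set Y} (hS : IsCompact S)
    (hne : S.Nonempty) {a : Y → Fin 4 → Fin 4 → ℝ} {D : Y → Fin 4 → Mat K}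
    (hac : ∀ i j, ContinuousOn (fun y => a y i j) S) (hDc : ∀ i, ContinuousOn (fun y => D y i) S)
    (hpf : ∀ y ∈ S, CF42.pf (a y) ≠ 0) : ∃ t0 : ℝ, ∀ y ∈ S, ∀ t, t0 ≤ t → ∀ Q : Mat K,
      (∀ a b, ‖Q a b‖ ≤ 1) →
      CF42.pf (fun i j => t * a y i j + (Matrix.trace (Q * (D y i * D y j - D y j * D y i))).im) ≠
        0 := by
  have hpfc : ContinuousOn (fun y => CF42.pf (a y)) S := by
    unfold CF42.pf
    exact (((hac 0 1).mul (hac 2 3)).sub ((hac 0 2).mul (hac 1 3))).add ((hac 0 3).mul (hac 1 2))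
  have hGc : ∀ i j, ContinuousOn (fun y => asum (D y i * D y j - D y j * D y i)) S := by
    intro i j
    have e1 : Continuous fun y : S => D y i := continuousOn_iff_continuous_restrict.1 (hDc i)
    have e2 : Continuous fun y : S => D y j := continuousOn_iff_continuous_restrict.1 (hDc j)
    have e3 : Continuous fun y : S => D y i * D y j - D y j * D y i :=
      (e1.matrix_mul e2).sub (e2.matrix_mul e1)
    have e4 : Continuous fun y : S => asum (D y i * D y j - D y j * D y i) :=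
      continuous_asum.comp e3
    exact continuousOn_iff_continuous_restrict.2 e4
  have hb1 : ∀ i j, ∃ A : ℝ, ∀ y ∈ S, |a y i j| ≤ A := fun i j => by
    obtain ⟨A, hA⟩ := hS.exists_bound_of_continuousOn (hac i j)
    exact ⟨A, fun y hy => hA y hy⟩
  have hb2 : ∀ i j, ∃ A : ℝ, ∀ y ∈ S, |asum (D y i * D y j - D y j * D y i)| ≤ A :=
    fun i j => by
      obtain ⟨A, hA⟩ := hS.exists_bound_of_continuousOn (hGc i j)
      exact ⟨A, fun y hy => hA y hy⟩
  choose A0 hA0 using hb1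
  choose C0 hC0 using hb2
  obtain ⟨A, hA⟩ : ∃ A, ∀ i j, A0 i j ≤ A := by
    obtain ⟨A, hA⟩ := Finset.exists_le (Finset.univ.image fun p : Fin 4 × Fin 4 => A0 p.1 p.2)
    exact ⟨A, fun i j => hA _ (Finset.mem_image.2 ⟨(i, j), Finset.mem_univ _, rfl⟩)⟩
  obtain ⟨C, hC⟩ : ∃ C, ∀ i j, C0 i j ≤ C := by
    obtain ⟨C, hC⟩ := Finset.exists_le (Finset.univ.image fun p : Fin 4 × Fin 4 => C0 p.1 p.2)
    exact ⟨C, fun i j => hC _ (Finset.mem_image.2 ⟨(i, j), Finset.mem_univ _, rfl⟩)⟩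
  obtain ⟨c0, hc0, hc0'⟩ : ∃ c0 : ℝ, 0 < c0 ∧ ∀ y ∈ S, c0 ≤ |CF42.pf (a y)| := by
    obtain ⟨y0, hy0, hmin⟩ := hS.exists_isMinOn hne hpfc.abs
    exact ⟨|CF42.pf (a y0)|, abs_pos.2 (hpf y0 hy0), fun y hy => hmin hy⟩
  refine ⟨1 + (6 * (A * C) + 3 * (C * C)) / c0, fun y hy t ht Q hQ => ?_⟩
  exact pf_large (a := a y)
    (F := fun i j => (Matrix.trace (Q * (D y i * D y j - D y j * D y i))).im)
    hc0 (hc0' y hy) (fun i j => (hA0 i j y hy).trans (hA i j))
    (fun i j => (im_trace_le hQ).trans ((le_abs_self _).trans ((hC0 i j y hy).trans (hC i j)))) ht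

section

variable [hX : IsManifold I4 ∞ X]

/-- nondegeneracy of `t Ω + i tr (Q F)` near a point for `t` large -/
theorem local_large (hP : IsBundle N P) {Ω : Form X 2} (hΩ : IsSymplectic Ω) (c : X) :
    ∃ t0 : ℝ, ∀ᶠ x in 𝓝 c, ∀ t, t0 ≤ t → ∀ Q : Mat K, (∀ a b, ‖Q a b‖ ≤ 1) →
      ∀ v, (∀ w, hx hP t Ω x Q v w = 0) → v = 0 := by
  letI : ChartedSpace (EuclideanSpace ℝ (Fin 4)) X := oldChart X
  have hsrc : (extChartAt 𝓘(ℝ, EE) c).source ∈ 𝓝 c := extChartAt_source_mem_nhds c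
  have hc0 : c ∈ (extChartAt 𝓘(ℝ, EE) c).source := mem_extChartAt_source c
  have hcont : ContinuousAt (extChartAt 𝓘(ℝ, EE) c) c := continuousAt_extChartAt c
  have hdom : extChartAt 𝓘(ℝ, EE) c c ∈ dom c := (extChartAt 𝓘(ℝ, EE) c).map_source hc0
  obtain ⟨r, hr, hball⟩ := Metric.nhds_basis_closedBall.mem_iff.1
    ((isOpen_dom c).mem_nhds hdom)
  have hK : IsCompact (Metric.closedBall (extChartAt 𝓘(ℝ, EE) c c) r) := isCompact_closedBall _ _
  have hne : (Metric.closedBall (extChartAt 𝓘(ℝ, EE) c c) r).Nonempty :=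
    ⟨_, Metric.mem_closedBall_self hr.le⟩
  have hpf : ∀ y ∈ Metric.closedBall (extChartAt 𝓘(ℝ, EE) c c) r, CF42.pf (fun i j =>
      val2 Ω (inv c y) (show T (inv c y) from dI c y (e4 i))
        (show T (inv c y) from dI c y (e4 j))) ≠ 0 := by
    intro y hy
    have h1 := (CF42.nondeg_iff (bas c (hball hy)) (bil Ω (inv c y))
      (fun v => val2_self Ω (inv c y) v)).1 (hΩ.nondeg (inv c y))
    simp only [bas_apply, bil_apply] at h1
    exact h1
  obtain ⟨t0, ht0⟩ := bound_lemma hK hne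
    (a := fun y i j => val2 Ω (inv c y) (show T (inv c y) from dI c y (e4 i))
      (show T (inv c y) from dI c y (e4 j)))
    (D := fun y i => dMat P (inv c y) (show T (inv c y) from dI c y (e4 i)))
    (fun i j => (continuousOn_val2 hΩ.smooth c (e4 i) (e4 j)).mono hball)
    (fun i => (continuousOn_dMat hP c (e4 i)).mono hball) hpf
  refine ⟨t0, ?_⟩
  filter_upwards [hcont.preimage_mem_nhds (Metric.closedBall_mem_nhds _ hr), hsrc] with x hx1 hx2
  intro t ht Q hQ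
  have hinv : inv c (extChartAt 𝓘(ℝ, EE) c x) = x := (extChartAt 𝓘(ℝ, EE) c).left_inv hx2
  have hy : extChartAt 𝓘(ℝ, EE) c x ∈ Metric.closedBall (extChartAt 𝓘(ℝ, EE) c c) r := hx1
  have key : ∀ y ∈ Metric.closedBall (extChartAt 𝓘(ℝ, EE) c c) r,
      ∀ v, (∀ w, hx hP t Ω (inv c y) Q v w = 0) → v = 0 := by
    intro y hy
    refine (CF42.nondeg_iff (bas c (hball hy)) (hx hP t Ω (inv c y) Q)
      (hx_self hP t Ω (inv c y) Q)).2 ?_
    have h1 := ht0 y hy t ht Q hQ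
    simp only [bas_apply]
    exact h1
  have h2 := key _ hy
  rw [hinv] at h2
  exact h2

theorem exists_large [CompactSpace X] (hP : IsBundle N P) {Ω : Form X 2} (hΩ : IsSymplectic Ω) :
    ∃ t : ℝ, ∀ (x : X) (Q : Mat K), (∀ a b, ‖Q a b‖ ≤ 1) →
      ∀ v, (∀ w, hx hP t Ω x Q v w = 0) → v = 0 := by
  choose t0 ht0 using local_large hP hΩ
  obtain ⟨s, hs⟩ := CompactSpace.elim_nhds_subcover _ ht0
  obtain ⟨t, ht⟩ := Finset.exists_le (s.image t0)
  refine ⟨t, fun x Q hQ => ?_⟩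
  have hx0 : x ∈ (⊤ : Set X) := trivial
  rw [← hs] at hx0
  obtain ⟨c, hc, hxc⟩ := Set.mem_iUnion₂.1 hx0
  exact hxc t (ht _ (Finset.mem_image.2 ⟨c, hc, rfl⟩)) Q hQ

theorem of_symplectic [CompactSpace X] (hP : IsBundle N P) {Ω : Form X 2} (hΩ : IsSymplectic Ω)
    (k : ℕ) : ∃ β : Form X 2, SmoothForm β ∧ ClosedForm β ∧ GrSymplectic k P β := by
  obtain ⟨t, ht⟩ := exists_large hP hΩ
  obtain ⟨β, h1, h2, h3⟩ := exists_form hP t 0 hΩ.smooth hΩ.closed
  refine ⟨β, h1, h2, (coupling_iff hP β k).2 fun x Q hQ v hv => ?_⟩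
  refine ht x Q (entry_le hQ.herm hQ.idem) v fun w => ?_
  have h4 := hv w
  rw [hx_apply, h3 x v w] at h4
  rw [hx_apply]
  linarith

theorem main_one [ConnectedSpace X] (hP : IsBundle N P) {k : ℕ} (hk : 1 ≤ k) (hkN : k < N)
    {β : Form X 2} (h1 : SmoothForm β) (h2 : ClosedForm β) (hc : GrSymplectic k P β) :
    (∃ Ω : Form X 2, IsSymplectic Ω ∧ ∀ (x : X) (v w : T x),
      val2 Ω x v w = val2 β x v w + ((k : ℝ) / N) * curv P x (P x) v w) ∨ (N = 2 ∧ Fat P) := by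
  obtain ⟨Ω, a1, a2, a3⟩ := exists_form hP 1 ((k : ℝ) / N) h1 h2
  have hfin : (∀ (x : X) (v : T x),
      (∀ w : T x, 1 * val2 β x v w + ((k : ℝ) / N) * curv P x (P x) v w = 0) → v = 0) →
      ∃ Ω : Form X 2, IsSymplectic Ω ∧ ∀ (x : X) (v w : T x),
        val2 Ω x v w = val2 β x v w + ((k : ℝ) / N) * curv P x (P x) v w := by
    intro h
    refine ⟨Ω, ⟨a1, a2, fun x v hv => h x v fun w => ?_⟩, fun x v w => ?_⟩
    · rw [← a3]
      exact hv w
    · rw [a3, one_mul]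
  rcases Nat.lt_or_ge N 3 with hN | hN
  · have hN2 : N = 2 := by omega
    have hk1 : k = 1 := by omega
    subst hN2 hk1
    rcases dichotomy hP h1 hc with h | h
    · left
      refine hfin fun x v hv => h x v fun w => ?_
      have := hv w
      push_cast at this
      exact this
    · exact Or.inr ⟨rfl, h⟩
  · left
    exact hfin (main_rigid hP hN hk hkN hc)

theorem main_two [CompactSpace X] [ConnectedSpace X] (hP : IsBundle N P) {k : ℕ} (hk : 1 ≤ k)
    (hkN : k < N) :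
    (∃ β : Form X 2, SmoothForm β ∧ ClosedForm β ∧ GrSymplectic k P β) ↔
      (∃ Ω : Form X 2, IsSymplectic Ω) ∨ (N = 2 ∧ Fat P) := by
  constructor
  · rintro ⟨β, h1, h2, hc⟩
    rcases main_one hP hk hkN h1 h2 hc with ⟨Ω, h, -⟩ | h
    · exact Or.inl ⟨Ω, h⟩
    · exact Or.inr h
  · rintro (⟨Ω, h⟩ | ⟨hN2, hF⟩)
    · exact of_symplectic hP h k
    · subst hN2
      have hk1 : k = 1 := by omega
      subst hk1
      exact of_fat hP hF

end

end Pool.Agent.W_9986fc_h63
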