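import Pool.Agent.W_9986fc_h63.Man5
import Pool.Agent.W_9986fc_h42.Non
import Pool.Agent.W_9986fc_h42.Tan

set_option autoImplicit false

/-!
Linear algebra at one point of `X`: the matrices `M i j`, and the tangent spaces of the
Grassmannian bundle.
-/

open scoped Manifold ContDiff

namespace Pool.Agent.W_9986fc_h63

open Pool.Agent.W_MP_d8b8b7_S

universe u

variable {K N : ℕ}

/-- hermitian matrices with `Re tr (M i j Q) = b i j tr Q + Im tr (Q [D i, D j])` for `P Q = Q` -/
noncomputable def MM (P : Mat K) (b : Fin 4 → Fin 4 → ℝ) (D : Fin 4 → Mat K) (i j : Fin 4) :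
    Mat K :=
  ((b i j : ℝ) : ℂ) • P + (-Complex.I) • (D i * D j - D j * D i)

theorem arr_MM {P Q : Mat K} (hQ : P * Q = Q) (b : Fin 4 → Fin 4 → ℝ) (D : Fin 4 → Mat K)
    (i j : Fin 4) : CF42.arr (MM P b D) Q i j =
      b i j * Q.trace.re + (Matrix.trace (Q * (D i * D j - D j * D i))).im := by
  have h : MM P b D i j * Q = ((b i j : ℝ) : ℂ) • Q + (-Complex.I) • ((D i * D j - D j * D i) * Q) := by
    rw [MM, add_mul, Matrix.smul_mul, Matrix.smul_mul, hQ]
  unfold CF42.arr CF42.rt
  rw [h, Matrix.trace_add, Matrix.trace_smul, Matrix.trace_smul, Matrix.trace_mul_comm Q]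
  simp

theorem hermAlt_MM {P : Mat K} (hP : P.IsHermitian) {b : Fin 4 → Fin 4 → ℝ}
    (hb : ∀ i j, b j i = - b i j) {D : Fin 4 → Mat K} (hD : ∀ i, (D i).IsHermitian) :
    CF42.HermAlt (MM P b D) where
  herm i j := by
    have h1 : P.conjTranspose = P := hP
    have h2 : ∀ i, (D i).conjTranspose = D i := hD
    simp only [MM, Matrix.conjTranspose_add, Matrix.conjTranspose_smul, Matrix.conjTranspose_sub,
      Matrix.conjTranspose_mul, h1, h2]
    congr 1
    · simp
    · rw [star_neg, Complex.star_def, Complex.conj_I, neg_neg, neg_smul, ← smul_neg, neg_sub]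
  alt i j := by
    simp only [MM, hb i j, neg_add, ← smul_neg, neg_sub]
    congr 1
    simp

variable {X : Type u} [TopologicalSpace X] [ChartedSpace E4 X] {P : X → Mat K}

/-- the matrices at `x` in a basis -/
noncomputable def Mx (P : X → Mat K) (s : ℝ) (β : Form X 2) (x : X) (f : Fin 4 → T x) :
    Fin 4 → Fin 4 → Mat K :=
  MM (P x) (fun i j => s * val2 β x (f i) (f j)) (fun i => dMat P x (f i))

theorem arr_Mx (hP : IsBundle N P) (s : ℝ) (β : Form X 2) (x : X) (f : Fin 4 → T x) {ξ : Mat K}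
    (hξ : P x * ξ = ξ) : CF42.arr (Mx P s β x f) ξ =
      fun i j => hx hP (s * ξ.trace.re) β x ξ (f i) (f j) := by
  funext i j
  unfold Mx
  rw [arr_MM hξ, hx_apply]
  unfold curv
  ring

theorem val2_antisymm (β : Form X 2) (x : X) (v w : T x) : val2 β x w v = - val2 β x v w := by
  have h := val2_self β x (v + w)
  have h1 : val2 β x (v + w) (v + w) = val2 β x v v + val2 β x v w + (val2 β x w v + val2 β x w w) := by
    simp only [← bil_apply, map_add, LinearMap.add_apply]
    ring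
  rw [h1, val2_self, val2_self] at h
  linarith

theorem hermAlt_Mx (hP : IsBundle N P) (s : ℝ) (β : Form X 2) (x : X) (f : Fin 4 → T x) :
    CF42.HermAlt (Mx P s β x f) := by
  refine hermAlt_MM (hP.herm x) (fun i j => ?_) (fun i => dMat_herm hP x (f i))
  rw [val2_antisymm β x (f i) (f j)]
  ring

theorem nondeg_Mx (hP : IsBundle N P) (s : ℝ) (β : Form X 2) (x : X)
    (f : Module.Basis (Fin 4) ℝ (T x)) {ξ : Mat K} (hξ : P x * ξ = ξ) :
    (∀ v, (∀ w, hx hP (s * ξ.trace.re) β x ξ v w = 0) → v = 0) ↔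
      CF42.pf (CF42.arr (Mx P s β x f) ξ) ≠ 0 := by
  rw [arr_Mx hP s β x f hξ]
  exact CF42.nondeg_iff f (hx hP (s * ξ.trace.re) β x ξ) (hx_self hP _ β x ξ)

/-- the derivative as a linear map -/
noncomputable def dL (hP : IsBundle N P) (x : X) : T x →ₗ[ℝ] Mat K where
  toFun v := dMat P x v
  map_add' := dMat_add hP x
  map_smul' c v := dMat_smul hP x c v

theorem mem_Gr_iff {k : ℕ} {x : X} {Q : Mat K} : Q ∈ CF42.Gr (P x) k ↔ InGr k P x Q :=
  ⟨fun h => ⟨h.1, h.2.1, h.2.2.1, h.2.2.2⟩, fun h => ⟨h.herm, h.idem, h.rank, h.le⟩⟩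

/-- the coupling form is nondegenerate iff its horizontal part is -/
theorem nondeg_point (hP : IsBundle N P) (β : Form X 2) {k : ℕ} {x : X} {Q : Mat K}
    (hQ : InGr k P x Q) :
    (∀ (v : T x) (R : Mat K), IsTangent P x Q v R →
      (∀ (w : T x) (S : Mat K), IsTangent P x Q w S → coupling β x Q v R w S = 0) →
      v = 0 ∧ R = 0) ↔ ∀ v, (∀ w, hx hP 1 β x Q v w = 0) → v = 0 := by
  have key := CF42.nondeg_TM (P := P x) (Q := Q) (k := k) (hP.herm x) (hP.idem x)
    (mem_Gr_iff.2 hQ) (dL hP x) (dMat_herm hP x) (dMat_idem hP x) (- bil β x)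
  have hT : ∀ v R, CF42.TM (P x) Q (dL hP x) v R ↔ IsTangent P x Q v R := by
    intro v R
    constructor
    · rintro ⟨h1, h2, h3⟩
      exact ⟨h1, by rw [add_comm]; exact h2, h3⟩
    · rintro ⟨h1, h2, h3⟩
      exact ⟨h1, by rw [add_comm]; exact h2, h3⟩
  have hk : ∀ A B : Mat K, CF42.kf Q A B = - fs Q A B := by
    intro A B
    simp [CF42.kf, fs]
  have e1 : ∀ v R w S, (- bil β x) v w + CF42.kf Q R S = 0 ↔ coupling β x Q v R w S = 0 := by
    intro v R w S
    rw [hk, coupling, LinearMap.neg_apply, LinearMap.neg_apply, bil_apply]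
    constructor <;> intro h <;> linarith
  have e2 : ∀ v w, (- bil β x) v w + CF42.kf Q (dL hP x v) (dL hP x w) = 0 ↔
      hx hP 1 β x Q v w = 0 := by
    intro v w
    rw [hk, LinearMap.neg_apply, LinearMap.neg_apply, bil_apply, hx_apply]
    change - val2 β x v w + - curv P x Q v w = 0 ↔ _
    constructor <;> intro h <;> linarith
  simp only [e2] at key
  simp only [hT, e1] at key
  exact key

theorem coupling_iff (hP : IsBundle N P) (β : Form X 2) (k : ℕ) :
    GrSymplectic k P β ↔ ∀ (x : X) (Q : Mat K), InGr k P x Q →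
      ∀ v, (∀ w, hx hP 1 β x Q v w = 0) → v = 0 := by
  unfold GrSymplectic
  refine forall_congr' fun x => forall_congr' fun Q => ?_
  constructor
  · intro h hQ
    exact (nondeg_point hP β hQ).1 (h hQ)
  · intro h hQ
    exact (nondeg_point hP β hQ).2 (h hQ)

end Pool.Agent.W_9986fc_h63
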